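import Pool.Agent.H70.AB.Defs
import Pool.Agent.H3.LC.NonMain
import Pool.Agent.H3.LC.Mertens

/-!
# AB KL: a long right block: the left block is at most `C` times longer

`m^(1/2+ε) ≤ l ≤ m`, `Sol m l n k`.  If `k ≤ l` nothing to show.  Let `k > l`.  `theta_half`: `θ(k) ≥ k/2`;
`cheb_theta`: `θ(k/8) ≤ 2 (k/8) = k/4`, so the primes `p ∈ (k/8, k]` have `∑ log p ≥ k/4`, and each `log p ≤ log m`
(`k ≤ m`), so there are at least `k / (4 log m)` of them.  Each divides some `y ∈ (m, m+l]` (`Sol.small_prime`),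
`y = w p`, `w ≤ (m+l)/(k/8) ≤ 16 m / k` and `w ≥ m / k`; so `p ∈ nonmainP m l w` (`nonmain_mem`), and `nonmain_card` with
`L = ε log m`: `l / w ≥ l k / (16 m) ≥ m^(2ε) / 16 ≥ m^ε`, so `#nonmainP m l w ≤ (2 C l / (ε log m)) (1/w)`.
Sum over `w ∈ [m/k, 16 m/k]`: `≤ (2 C l/(ε log m)) · 16` (number of `w` times `k/m`).  So `k/(4 log m) ≤ 32 C l/(ε log m)`.
-/

set_option autoImplicit false

open Finset

namespace Pool.Agent.H70.AB

/-- the primes in `(k/8, k]` -/
theorem kl_mass {k : ℕ} (h : (k : ℝ) / 2 ≤ Chebyshev.theta k) :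
    (k : ℝ) / 4 ≤ ∑ p ∈ (Ioc (k / 8) k).filter Nat.Prime, Real.log p := by
  have h1 := H3.LC.cheb_theta (k / 8)
  have h2 : ((k / 8 : ℕ) : ℝ) ≤ (k : ℝ) / 8 := by
    have := Nat.cast_div_le (α := ℝ) (m := k) (n := 8)
    exact_mod_cast this
  have h3 : Chebyshev.theta k ≤ ∑ p ∈ (Icc 1 (k / 8)).filter Nat.Prime, Real.log p +
      ∑ p ∈ (Ioc (k / 8) k).filter Nat.Prime, Real.log p := by
    rw [Chebyshev.theta_eq_sum_Icc, Nat.floor_natCast, ← sum_union]
    · refine sum_le_sum_of_subset_of_nonneg ?_ fun p _ _ => Real.log_natCast_nonneg p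
      intro p hp
      rw [mem_filter, mem_Icc] at hp
      have := hp.2.one_lt
      rw [mem_union, mem_filter, mem_filter, mem_Icc, mem_Ioc]
      rcases le_or_gt p (k / 8) with h | h
      · exact Or.inl ⟨⟨by omega, h⟩, hp.2⟩
      · exact Or.inr ⟨⟨h, hp.1.2⟩, hp.2⟩
    · rw [disjoint_left]
      intro p hp hp'
      rw [mem_filter, mem_Icc] at hp
      rw [mem_filter, mem_Ioc] at hp'
      omega
  linarith

theorem length_le_mul (ε : ℝ) (hε : 0 < ε) : ∃ C : ℝ, 0 < C ∧ ∃ m0 : ℕ, ∀ m : ℕ, m0 ≤ m → ∀ l n k : ℕ,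
    (m : ℝ) ^ (1 / 2 + ε) ≤ l → l ≤ m → Sol m l n k → (k : ℝ) ≤ C * l := by
  classical
  obtain ⟨C0, hC0, hBT⟩ := H3.LC.brun_titchmarsh
  obtain ⟨K, hK⟩ := theta_half
  obtain ⟨m0, hm0⟩ : ∃ m0 : ℕ, ∀ m : ℕ, m0 ≤ m → 16 ≤ (m : ℝ) ^ ε := by
    have h1 := (tendsto_rpow_atTop hε).comp (tendsto_natCast_atTop_atTop (R := ℝ))
    exact Filter.eventually_atTop.1 (h1.eventually_ge_atTop 16)
  refine ⟨128 * C0 / ε + K + 1, by positivity, max m0 2, fun m hm l n k hl hlm hsol => ?_⟩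
  have hm2 : 2 ≤ m := le_trans (le_max_right _ _) hm
  have hmε := hm0 m (le_trans (le_max_left _ _) hm)
  have hmR : (2 : ℝ) ≤ m := by exact_mod_cast hm2
  have hm0R : (0 : ℝ) < m := by linarith
  have hl0 : 0 < l := hsol.hl
  have hlR : (0 : ℝ) < l := by exact_mod_cast hl0
  have hl1 : (1 : ℝ) ≤ l := by exact_mod_cast hl0
  have hkm : k ≤ m := by
    have := hsol.le
    omega
  have hCe : 0 < 128 * C0 / ε := by positivity
  have hKn : (0 : ℝ) ≤ K := Nat.cast_nonneg K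
  rcases le_or_gt k l with hkl | hkl
  · have h1 : (k : ℝ) ≤ l := by exact_mod_cast hkl
    nlinarith
  rcases lt_or_ge k K with hkK | hkK
  · have h1 : (k : ℝ) ≤ K := by exact_mod_cast hkK.le
    nlinarith
  have hk0 : 0 < k := hsol.hk
  have hkR : (0 : ℝ) < k := by exact_mod_cast hk0
  have hlogm : 0 < Real.log m := Real.log_pos (by linarith)
  have hL : 0 < ε * Real.log m := by positivity
  set P := (Ioc (k / 8) k).filter Nat.Prime with hP
  have hmass := kl_mass (hK k hkK)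
  have hcard1 : (k : ℝ) / 4 ≤ (P.card : ℝ) * Real.log m := by
    refine hmass.trans ?_
    rw [← nsmul_eq_mul]
    refine sum_le_card_nsmul _ _ _ fun p hp => ?_
    rw [mem_filter, mem_Ioc] at hp
    refine Real.log_le_log (by exact_mod_cast hp.2.pos) ?_
    exact_mod_cast hp.1.2.trans hkm
  -- the covering
  set W := (Icc 1 (16 * m / k)).filter (fun w => m < w * k) with hW
  have hcover : P ⊆ W.biUnion fun w => H3.LC.nonmainP m l w := by
    intro p hp
    rw [hP, mem_filter, mem_Ioc] at hp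
    obtain ⟨⟨hp1, hp2⟩, hpp⟩ := hp
    obtain ⟨y, hy, w, hw⟩ := hsol.small_prime hpp hp2
    rw [mem_Icc] at hy
    have hw0 : 0 < w := by
      rcases Nat.eq_zero_or_pos w with h | h
      · rw [h, mul_zero] at hw; omega
      · exact h
    have h8 : k < 8 * p := by omega
    have hyw : w * p = y := by rw [hw, mul_comm]
    rw [mem_biUnion]
    refine ⟨w, ?_, H3.LC.nonmain_mem hw0 hpp (by omega) (by omega)⟩
    rw [hW, mem_filter, mem_Icc]
    refine ⟨⟨hw0, ?_⟩, ?_⟩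
    · rw [Nat.le_div_iff_mul_le hk0]
      calc w * k ≤ w * (8 * p) := Nat.mul_le_mul_left _ h8.le
        _ = 8 * (w * p) := by ring
        _ ≤ 16 * m := by omega
    · calc m < w * p := by omega
        _ ≤ w * k := Nat.mul_le_mul_left _ hp2
  have hkw : ∀ w ∈ W, ε * Real.log m ≤ Real.log ((l : ℝ) / w) := by
    intro w hw
    rw [hW, mem_filter, mem_Icc] at hw
    have hw0 : 0 < w := hw.1.1
    have hwR : (0 : ℝ) < w := by exact_mod_cast hw0
    have hw2 : (w : ℝ) * k ≤ 16 * m := by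
      have h1 := hw.1.2
      rw [Nat.le_div_iff_mul_le hk0] at h1
      exact_mod_cast h1
    have h1 : (m : ℝ) ^ ε ≤ (l : ℝ) / w := by
      rw [le_div_iff₀ hwR]
      have hlk : (l : ℝ) ≤ k := by exact_mod_cast hkl.le
      have h4 : ((m : ℝ) ^ (1 / 2 + ε)) ^ 2 ≤ (l : ℝ) * k := by
        have h0 : (0 : ℝ) ≤ (m : ℝ) ^ (1 / 2 + ε) := by positivity
        calc ((m : ℝ) ^ (1 / 2 + ε)) ^ 2 ≤ (l : ℝ) ^ 2 := by gcongr
          _ = (l : ℝ) * l := sq _
          _ ≤ (l : ℝ) * k := mul_le_mul_of_nonneg_left hlk hlR.le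
      have h5 : ((m : ℝ) ^ (1 / 2 + ε)) ^ 2 = m * ((m : ℝ) ^ ε * (m : ℝ) ^ ε) := by
        rw [Real.rpow_add hm0R, mul_pow, ← Real.sqrt_eq_rpow, Real.sq_sqrt hm0R.le]
        ring
      rw [h5] at h4
      have h6 : (0 : ℝ) ≤ (m : ℝ) ^ ε := by positivity
      -- `m^ε w k ≤ 16 m m^ε ≤ m m^ε m^ε ≤ l k`
      have h7 : (m : ℝ) ^ ε * w * k ≤ l * k := by
        calc (m : ℝ) ^ ε * w * k = (m : ℝ) ^ ε * (w * k) := by ring
          _ ≤ (m : ℝ) ^ ε * (16 * m) := mul_le_mul_of_nonneg_left hw2 h6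
          _ ≤ (m : ℝ) ^ ε * ((m : ℝ) ^ ε * m) := by gcongr
          _ = m * ((m : ℝ) ^ ε * (m : ℝ) ^ ε) := by ring
          _ ≤ l * k := h4
      exact le_of_mul_le_mul_right h7 hkR
    have h7 := Real.log_le_log (by positivity) h1
    rwa [Real.log_rpow hm0R] at h7
  have hcard2 : (P.card : ℝ) ≤ 32 * C0 * l / (ε * Real.log m) := by
    have h1 : (P.card : ℝ) ≤ ∑ w ∈ W, ((H3.LC.nonmainP m l w).card : ℝ) := by
      have h2 := (card_le_card hcover).trans card_biUnion_le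
      exact_mod_cast h2
    have h2 : ∑ w ∈ W, ((H3.LC.nonmainP m l w).card : ℝ) ≤
        ∑ _w ∈ W, 2 * C0 * l / (ε * Real.log m) * ((k : ℝ) / m) := by
      refine sum_le_sum fun w hw => ?_
      have hw' := hw
      rw [hW, mem_filter, mem_Icc] at hw'
      have hw0 : 0 < w := hw'.1.1
      have hwR : (0 : ℝ) < w := by exact_mod_cast hw0
      refine (H3.LC.nonmain_card hC0 hBT hL hw0 (hkw w hw)).trans ?_
      refine mul_le_mul_of_nonneg_left ?_ (by positivity)
      rw [div_le_div_iff₀ hwR hm0R, one_mul, mul_comm]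
      exact_mod_cast hw'.2.le
    have h3 : (W.card : ℝ) ≤ 16 * m / k := by
      have h4 : W.card ≤ 16 * m / k := by
        refine (card_filter_le _ _).trans ?_
        rw [Nat.card_Icc, Nat.add_sub_cancel]
      have h5 : ((16 * m / k : ℕ) : ℝ) ≤ 16 * m / k := by
        have := Nat.cast_div_le (α := ℝ) (m := 16 * m) (n := k)
        push_cast at this
        exact this
      exact le_trans (by exact_mod_cast h4) h5
    calc (P.card : ℝ) ≤ _ := h1
      _ ≤ _ := h2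
      _ = (W.card : ℝ) * (2 * C0 * l / (ε * Real.log m) * ((k : ℝ) / m)) := by
          rw [sum_const, nsmul_eq_mul]
      _ ≤ (16 * m / k) * (2 * C0 * l / (ε * Real.log m) * ((k : ℝ) / m)) :=
          mul_le_mul_of_nonneg_right h3 (by positivity)
      _ = 32 * C0 * l / (ε * Real.log m) := by
          field_simp
          ring
  have hfin : (k : ℝ) / 4 ≤ 32 * C0 * l / ε := by
    calc (k : ℝ) / 4 ≤ (P.card : ℝ) * Real.log m := hcard1
      _ ≤ 32 * C0 * l / (ε * Real.log m) * Real.log m := mul_le_mul_of_nonneg_right hcard2 hlogm.le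
      _ = 32 * C0 * l / ε := by field_simp
  have h9 : (k : ℝ) ≤ 128 * C0 / ε * l := by
    have : 128 * C0 / ε * l = 4 * (32 * C0 * l / ε) := by ring
    rw [this]
    linarith
  nlinarith

end Pool.Agent.H70.AB
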