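import Pool.Agent.H70.AB.NonMain
import Pool.Agent.H70.AB.KL
import Pool.Agent.H3.LC.RangeB
import Pool.Agent.H3.LC.PrimeGap

/-!
# AB RangeD: long right blocks, all large `m`

For every `ε > 0`, `m ≥ m0(ε)` and `l ≥ m^(1/2+ε)` there are no `n, k` with `Sol m l n k`.
* `m ≤ B l`: there is a prime in `(m, m+l]`, it exceeds all elements of the left block;
* otherwise `k ≤ C4 l` (KL); with `K = max (k, l)` the mass above `K` of the right block is at least
  `l log (m/l) - C l`, it has one ratio up to `C3 l` (NonMain), so some prime `q` divides all the elements of this main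
  part and its mass is at most `(l/2) log (m/l) + C2 l` (LC MassUp).
-/

set_option autoImplicit false

open Finset

namespace Pool.Agent.H70.AB

/-- the mass between `l` and `K` of a block of length `l` -/
theorem sum_md_le (m l K : ℕ) :
    ∑ y ∈ Icc (m + 1) (m + l), H3.LC.md l K y ≤ 2 * (K : ℝ) := by
  classical
  have h1 : ∀ y ∈ Icc (m + 1) (m + l), H3.LC.md l K y ≤
      ∑ p ∈ (Icc 1 K).filter Nat.Prime, if (l < p ∧ p ∣ y) then Real.log p else 0 := by
    intro y _
    unfold H3.LC.md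
    rw [← sum_filter]
    refine sum_le_sum_of_subset_of_nonneg ?_ fun p _ _ => Real.log_natCast_nonneg p
    intro p hp
    rw [mem_filter] at hp
    have hpp := Nat.prime_of_mem_primeFactors hp.1
    have h2 : l < p := by exact_mod_cast hp.2.1
    have h3 : p ≤ K := by exact_mod_cast hp.2.2
    rw [mem_filter, mem_filter, mem_Icc]
    exact ⟨⟨⟨hpp.one_lt.le, h3⟩, hpp⟩, h2, Nat.dvd_of_mem_primeFactors hp.1⟩
  refine (sum_le_sum h1).trans ?_
  rw [sum_comm]
  refine le_trans (sum_le_sum (fun p hp => ?_)) (H3.LC.cheb_theta K)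
  have hlog : 0 ≤ Real.log p := Real.log_natCast_nonneg p
  rw [← sum_filter, sum_const, nsmul_eq_mul]
  have hcard : ((Icc (m + 1) (m + l)).filter (fun y => l < p ∧ p ∣ y)).card ≤ 1 := by
    refine card_le_one.2 fun a ha b hb => ?_
    rw [mem_filter] at ha hb
    exact H3.LC.multiple_unique ha.2.1.le ha.1 hb.1 ha.2.2 hb.2.2
  calc (((Icc (m + 1) (m + l)).filter (fun y => l < p ∧ p ∣ y)).card : ℝ) * Real.log p
      ≤ 1 * Real.log p := mul_le_mul_of_nonneg_right (by exact_mod_cast hcard) hlog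
    _ = Real.log p := one_mul _

theorem long_right (ε : ℝ) (hε : 0 < ε) : ∃ m0 : ℕ, ∀ m : ℕ, m0 ≤ m → ∀ l n k : ℕ,
    (m : ℝ) ^ (1 / 2 + ε) ≤ l → ¬ Sol m l n k := by
  obtain ⟨C1, hC1, n1, h1⟩ := H3.LC.mass_lower ε hε
  obtain ⟨C2, hC2, n2, h2⟩ := H3.LC.mass_upper ε hε
  obtain ⟨C3, hC3, n3, h3⟩ := non_main ε hε
  obtain ⟨C4, hC4, n4, h4⟩ := length_le_mul ε hε
  obtain ⟨B, hB⟩ := exists_nat_gt (Real.exp (2 * (C1 + C2 + C3 + 2 * (1 + C4)) + 1))
  obtain ⟨x0, hx0⟩ := H3.LC.exists_prime_near (1 / ((B : ℝ) + 1)) (by positivity)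
  refine ⟨max (max n1 n2) (max (max n3 n4) (max x0 1)), fun m hm l n k hl hsol => ?_⟩
  have hm1 : n1 ≤ m := le_trans (le_trans (le_max_left _ _) (le_max_left _ _)) hm
  have hm2 : n2 ≤ m := le_trans (le_trans (le_max_right _ _) (le_max_left _ _)) hm
  have hm3 : n3 ≤ m :=
    le_trans (le_trans (le_trans (le_max_left _ _) (le_max_left _ _)) (le_max_right _ _)) hm
  have hm4 : n4 ≤ m :=
    le_trans (le_trans (le_trans (le_max_right _ _) (le_max_left _ _)) (le_max_right _ _)) hm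
  have hm5 : x0 ≤ m :=
    le_trans (le_trans (le_trans (le_max_left _ _) (le_max_right _ _)) (le_max_right _ _)) hm
  have hm6 : 1 ≤ m :=
    le_trans (le_trans (le_trans (le_max_right _ _) (le_max_right _ _)) (le_max_right _ _)) hm
  have hmR : (1 : ℝ) ≤ m := by exact_mod_cast hm6
  have hlpos : (0 : ℝ) < l := by exact_mod_cast hsol.hl
  have hBpos : (0 : ℝ) < B := lt_trans (Real.exp_pos _) hB
  rcases le_or_gt m (B * l) with hBl | hBl
  · -- a prime in the right block
    obtain ⟨p, hp, hmp, hpm⟩ := hx0 m hm5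
    have h5 : (m : ℝ) ≤ ((B : ℝ) + 1) * l := by
      have : (m : ℝ) ≤ (B : ℝ) * l := by exact_mod_cast hBl
      linarith
    have h6 : 1 / ((B : ℝ) + 1) * m ≤ l := by
      rw [one_div, inv_mul_le_iff₀ (by positivity)]
      exact h5
    have h7 : (p : ℝ) ≤ ((m + l : ℕ) : ℝ) := by
      push_cast
      linarith
    have h8 : p ≤ m + l := by exact_mod_cast h7
    obtain ⟨x, hx, hpx⟩ := (hsol.iff p hp).2 ⟨p, mem_Icc.2 ⟨by omega, h8⟩, dvd_rfl⟩
    rw [mem_Icc] at hx
    have h9 := Nat.le_of_dvd (by omega) hpx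
    have := hsol.le
    omega
  · have hB1 : 1 ≤ B := by exact_mod_cast hBpos
    have hlm : l ≤ m := by nlinarith
    have hC4l := h4 m hm4 l n k hl hlm hsol
    set K := max k l with hK
    have hkK : k ≤ K := le_max_left _ _
    have hlK : l ≤ K := le_max_right _ _
    have hKR : (K : ℝ) ≤ (1 + C4) * l := by
      rw [hK]
      push_cast
      exact max_le (by linarith) (by nlinarith)
    set L : ℝ := Real.log m - Real.log l with hLdef
    have hLB : 2 * (C1 + C2 + C3 + 2 * (1 + C4)) + 1 < L := by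
      have e1 : 2 * (C1 + C2 + C3 + 2 * (1 + C4)) + 1 < Real.log B := (Real.lt_log_iff_exp_lt hBpos).2 hB
      have e2 : Real.log B + Real.log l ≤ Real.log m := by
        rw [← Real.log_mul hBpos.ne' hlpos.ne']
        refine Real.log_le_log (by positivity) ?_
        exact_mod_cast hBl.le
      linarith
    have hLpos : 0 < L := by linarith
    obtain ⟨r, S, hSE, hSr, hSm⟩ := h3 m hm3 l n k K hl hlm hsol hkK hlK
    have hSI : S ⊆ Icc (m + 1) (m + l) := hSE.trans (filter_subset _ _)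
    -- total mass
    have htot : (l : ℝ) * L - C1 * l ≤ ∑ y ∈ Icc (m + 1) (m + l), H3.LC.ms l y :=
      h1 m hm1 l m l hl hlm le_rfl le_rfl
    have hlKR : (l : ℝ) ≤ K := by exact_mod_cast hlK
    have hsplit : ∑ y ∈ Icc (m + 1) (m + l), H3.LC.ms l y =
        ∑ y ∈ Icc (m + 1) (m + l), H3.LC.md l K y + ∑ y ∈ Icc (m + 1) (m + l), H3.LC.ms K y := by
      rw [← sum_add_distrib]
      exact sum_congr rfl fun y _ => H3.LC.ms_split hlKR y
    have hmd := sum_md_le m l K
    have hSlow : (l : ℝ) * L - (C1 + C3 + 2 * (1 + C4)) * l ≤ ∑ y ∈ S, H3.LC.ms K y := by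
      have e1 : ∑ y ∈ Icc (m + 1) (m + l), H3.LC.ms K y = ∑ y ∈ H3.LC.E K m l, H3.LC.ms K y :=
        H3.LC.rangeB_sum_E _ _ _
      rw [← sum_sdiff hSE] at e1
      nlinarith
    have hSpos : 0 < ∑ y ∈ S, H3.LC.ms K y := by
      have : 0 < (l : ℝ) * (L - (C1 + C3 + 2 * (1 + C4))) := mul_pos hlpos (by linarith)
      linarith
    have hSne : S.Nonempty := by
      rcases S.eq_empty_or_nonempty with h | h
      · rw [h, sum_empty] at hSpos
        exact absurd hSpos (lt_irrefl _)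
      · exact h
    obtain ⟨q, hq, hqS⟩ := ratio_cases hsol.le hSne (fun y hy => by
      have := (mem_Icc.1 (hSI hy)).1
      omega) hSr
    have hup := h2 m hm2 l q hq hl hlm
    have hSq : ∑ y ∈ S, H3.LC.ms K y ≤
        ∑ y ∈ (Icc (m + 1) (m + l)).filter (fun y => q ∣ y), H3.LC.ms l y := by
      refine le_trans (sum_le_sum (fun y _ => ?_)) (sum_le_sum_of_subset_of_nonneg
        (fun y hy => mem_filter.2 ⟨hSI hy, hqS y hy⟩) fun y _ _ => H3.LC.ms_nonneg _ _)
      rw [H3.LC.ms_split hlKR y]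
      linarith [H3.LC.md_nonneg (l : ℝ) (K : ℝ) y]
    have hq2 : (l : ℝ) / q * L ≤ (l : ℝ) / 2 * L := by
      refine mul_le_mul_of_nonneg_right ?_ hLpos.le
      refine div_le_div_of_nonneg_left hlpos.le (by norm_num) ?_
      exact_mod_cast hq.two_le
    have h5 : (l : ℝ) * L - (C1 + C3 + 2 * (1 + C4)) * l ≤ (l : ℝ) / 2 * L + C2 * l := by linarith
    have h7 : 0 < L / 2 - (C1 + C2 + C3 + 2 * (1 + C4)) := by linarith
    nlinarith [mul_pos hlpos h7]

end Pool.Agent.H70.AB
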