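import Pool.Agent.H3.LC.Arith

/-!
# PROJECT AB (MP_b43c01_nt, Erdos 931, blocks of consecutive integers with equal prime sets): almost all blocks

`Sol m l n k`: the left block `(n, n+k]` and the right block `(m, m+l]` are disjoint and have the same prime
divisors.  Final theorem (Main.lean): for almost all `m` there are no `l, k ≥ 1` with `3 ≤ k + l` and no `n`
with `Sol m l n k`.

This file: definition and the bound `k ≤ C l log (m + l)`.
-/

set_option autoImplicit false

open Finset

namespace Pool.Agent.H70.AB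

/-- the blocks `(n, n+k]` (left) and `(m, m+l]` (right) are disjoint and have the same prime divisors -/
structure Sol (m l n k : ℕ) : Prop where
  hk : 0 < k
  hl : 0 < l
  le : n + k ≤ m
  iff : ∀ p : ℕ, p.Prime → ((∃ x ∈ Icc (n + 1) (n + k), p ∣ x) ↔ ∃ y ∈ Icc (m + 1) (m + l), p ∣ y)

/-- among `k` consecutive integers there is a multiple of `p ≤ k` -/
theorem exists_multiple {n k p : ℕ} (hp : 0 < p) (hpk : p ≤ k) : ∃ x ∈ Icc (n + 1) (n + k), p ∣ x := by
  refine ⟨p * (n / p + 1), ?_, Dvd.intro _ rfl⟩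
  rw [mem_Icc]
  have h1 := Nat.div_add_mod n p
  have h2 := Nat.mod_lt n hp
  have h3 : p * (n / p + 1) = p * (n / p) + p := by ring
  omega

/-- every prime `p ≤ k` divides an element of the right block -/
theorem Sol.small_prime {m l n k p : ℕ} (h : Sol m l n k) (hp : p.Prime) (hpk : p ≤ k) :
    ∃ y ∈ Icc (m + 1) (m + l), p ∣ y :=
  (h.iff p hp).1 (exists_multiple hp.pos hpk)

/-- a lower bound of Chebyshev's function -/
theorem theta_half : ∃ K : ℕ, ∀ k : ℕ, K ≤ k → (k : ℝ) / 2 ≤ Chebyshev.theta k := by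
  have h1 : Filter.Tendsto (fun k : ℕ => Real.log ((k : ℝ) + 1) / k) Filter.atTop (nhds 0) := by
    have h2 : Filter.Tendsto (fun x : ℝ => Real.log x / x) Filter.atTop (nhds 0) := by
      have := (Real.isLittleO_log_id_atTop).tendsto_div_nhds_zero
      exact this
    have h3 : Filter.Tendsto (fun k : ℕ => (k : ℝ) + 1) Filter.atTop Filter.atTop :=
      Filter.tendsto_atTop_add_const_right _ _ tendsto_natCast_atTop_atTop
    have h4 := h2.comp h3
    have h5 : Filter.Tendsto (fun k : ℕ => (((k : ℝ) + 1) / k)) Filter.atTop (nhds 1) := by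
      have h6 : Filter.Tendsto (fun k : ℕ => 1 + 1 / (k : ℝ)) Filter.atTop (nhds (1 + 0)) :=
        tendsto_const_nhds.add tendsto_one_div_atTop_nhds_zero_nat
      rw [add_zero] at h6
      refine h6.congr' ?_
      filter_upwards [Filter.eventually_gt_atTop 0] with k hk
      have : (k : ℝ) ≠ 0 := by exact_mod_cast hk.ne'
      field_simp
    have h7 := h4.mul h5
    rw [zero_mul] at h7
    refine h7.congr' ?_
    filter_upwards [Filter.eventually_gt_atTop 0] with k hk
    have hk' : (0 : ℝ) < k := by exact_mod_cast hk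
    simp only [Function.comp]
    field_simp
  have h2 : Filter.Tendsto (fun k : ℕ => Real.log k / Real.sqrt k) Filter.atTop (nhds 0) := by
    have h3 : Filter.Tendsto (fun x : ℝ => Real.log x / x ^ (1 / 2 : ℝ)) Filter.atTop (nhds 0) :=
      (isLittleO_log_rpow_atTop (by norm_num : (0 : ℝ) < 1 / 2)).tendsto_div_nhds_zero
    have h4 := h3.comp (tendsto_natCast_atTop_atTop (R := ℝ))
    refine h4.congr' (Filter.Eventually.of_forall fun k => ?_)
    simp only [Function.comp]
    rw [Real.sqrt_eq_rpow]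
  have e1 := h1.eventually (gt_mem_nhds (show (0 : ℝ) < 1 / 20 by norm_num))
  have e2 := h2.eventually (gt_mem_nhds (show (0 : ℝ) < 1 / 20 by norm_num))
  obtain ⟨K, hK⟩ := Filter.eventually_atTop.1 (e1.and (e2.and (Filter.eventually_gt_atTop 0)))
  refine ⟨K, fun k hk => ?_⟩
  obtain ⟨g1, g2, g3⟩ := hK k hk
  have hk0 : (0 : ℝ) < k := by exact_mod_cast g3
  have hs : 0 < Real.sqrt k := Real.sqrt_pos.2 hk0
  rw [div_lt_iff₀ hk0] at g1
  rw [div_lt_iff₀ hs] at g2
  have hss : Real.sqrt k * Real.sqrt k = k := Real.mul_self_sqrt hk0.le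
  have h3 := Chebyshev.theta_ge k
  have h4 : 2 * Real.sqrt k * Real.log k ≤ 1 / 10 * k := by nlinarith
  have h5 := Real.log_two_gt_d9
  nlinarith

/-- the length of the left block -/
theorem length_le : ∃ C : ℝ, 0 < C ∧ ∀ m l n k : ℕ, Sol m l n k → (k : ℝ) ≤ C * l * Real.log (m + l) := by
  obtain ⟨K, hK⟩ := theta_half
  refine ⟨2 * K + 2, by positivity, fun m l n k h => ?_⟩
  have hl : (1 : ℝ) ≤ l := by exact_mod_cast h.hl
  have hml : 2 ≤ m + l := by
    have := h.le; have := h.hk; have := h.hl
    omega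
  have hmlR : (2 : ℝ) ≤ (m : ℝ) + l := by exact_mod_cast hml
  have hlog : Real.log 2 ≤ Real.log ((m : ℝ) + l) := Real.log_le_log (by norm_num) hmlR
  have hlog2 := Real.log_two_gt_d9
  have hlogpos : 0 < Real.log ((m : ℝ) + l) := by linarith
  rcases lt_or_ge k K with hkK | hkK
  · have h1 : (k : ℝ) ≤ K := by exact_mod_cast hkK.le
    have h2 : (K : ℝ) ≤ (2 * K + 2) * l * Real.log ((m : ℝ) + l) := by
      have h3 : (1 : ℝ) / 2 ≤ l * Real.log ((m : ℝ) + l) := by nlinarith
      have h4 : (0 : ℝ) ≤ K := Nat.cast_nonneg K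
      nlinarith
    linarith
  · have h1 := hK k hkK
    have h2 : Chebyshev.theta k ≤ l * Real.log ((m : ℝ) + l) := by
      rw [Chebyshev.theta_eq_log_primorial, Nat.floor_natCast]
      have h3 : primorial k ∣ ∏ y ∈ Icc (m + 1) (m + l), y := by
        unfold primorial
        refine Finset.prod_primes_dvd _ (fun p hp => ?_) (fun p hp => ?_)
        · exact (mem_filter.1 hp).2.prime
        · rw [mem_filter, mem_range] at hp
          obtain ⟨y, hy, hpy⟩ := h.small_prime hp.2 (by omega)
          exact hpy.trans (dvd_prod_of_mem (fun y => y) hy)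
      have h4 : ∏ y ∈ Icc (m + 1) (m + l), y ≤ (m + l) ^ l := by
        have h5 := prod_le_pow_card (Icc (m + 1) (m + l)) (fun y => y) (m + l) (fun y hy => (mem_Icc.1 hy).2)
        rw [Nat.card_Icc] at h5
        have h6 : m + l + 1 - (m + 1) = l := by omega
        rwa [h6] at h5
      have hpos : 0 < ∏ y ∈ Icc (m + 1) (m + l), y := prod_pos fun y hy => by
        rw [mem_Icc] at hy; omega
      have h7 : (primorial k : ℝ) ≤ ((m : ℝ) + l) ^ l := by
        have := (Nat.le_of_dvd hpos h3).trans h4
        exact_mod_cast this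
      have h8 : (0 : ℝ) < primorial k := by exact_mod_cast primorial_pos k
      calc Real.log (primorial k) ≤ Real.log (((m : ℝ) + l) ^ l) := Real.log_le_log h8 h7
        _ = l * Real.log ((m : ℝ) + l) := Real.log_pow _ _
    have h3 : (0 : ℝ) ≤ K := Nat.cast_nonneg K
    have h4 : 0 ≤ l * Real.log ((m : ℝ) + l) := by positivity
    nlinarith

end Pool.Agent.H70.AB
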