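import Pool.Agent.H70.AB.Defs

/-!
# AB Bridge: `Sol` in terms of the products `(n+1)...(n+k)`
-/

set_option autoImplicit false

open Finset

namespace Pool.Agent.H70.AB

theorem prod_ne_zero' (n k : ℕ) : ∏ i ∈ Icc 1 k, (n + i) ≠ 0 := by
  refine prod_ne_zero_iff.2 fun i hi => ?_
  rw [mem_Icc] at hi
  omega

theorem prime_dvd_prod {n k p : ℕ} (hp : p.Prime) :
    p ∣ ∏ i ∈ Icc 1 k, (n + i) ↔ ∃ x ∈ Icc (n + 1) (n + k), p ∣ x := by
  rw [hp.prime.dvd_finsetProd_iff]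
  constructor
  · rintro ⟨i, hi, h⟩
    rw [mem_Icc] at hi
    exact ⟨n + i, mem_Icc.2 ⟨by omega, by omega⟩, h⟩
  · rintro ⟨x, hx, h⟩
    rw [mem_Icc] at hx
    refine ⟨x - n, mem_Icc.2 ⟨by omega, by omega⟩, ?_⟩
    have : n + (x - n) = x := by omega
    rwa [this]

theorem sol_iff {m l n k : ℕ} : Sol m l n k ↔ 0 < k ∧ 0 < l ∧ n + k ≤ m ∧
    (∏ i ∈ Icc 1 k, (n + i)).primeFactors = (∏ i ∈ Icc 1 l, (m + i)).primeFactors := by
  constructor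
  · rintro ⟨hk, hl, hle, hiff⟩
    refine ⟨hk, hl, hle, ?_⟩
    ext p
    rw [Nat.mem_primeFactors_of_ne_zero (prod_ne_zero' n k), Nat.mem_primeFactors_of_ne_zero (prod_ne_zero' m l)]
    constructor
    · rintro ⟨hp, h⟩
      exact ⟨hp, (prime_dvd_prod hp).2 ((hiff p hp).1 ((prime_dvd_prod hp).1 h))⟩
    · rintro ⟨hp, h⟩
      exact ⟨hp, (prime_dvd_prod hp).2 ((hiff p hp).2 ((prime_dvd_prod hp).1 h))⟩
  · rintro ⟨hk, hl, hle, heq⟩
    refine ⟨hk, hl, hle, fun p hp => ?_⟩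
    rw [← prime_dvd_prod hp, ← prime_dvd_prod hp]
    have h1 : p ∈ (∏ i ∈ Icc 1 k, (n + i)).primeFactors ↔ p ∈ (∏ i ∈ Icc 1 l, (m + i)).primeFactors := by
      rw [heq]
    rw [Nat.mem_primeFactors_of_ne_zero (prod_ne_zero' n k),
      Nat.mem_primeFactors_of_ne_zero (prod_ne_zero' m l)] at h1
    constructor
    · intro h
      exact (h1.1 ⟨hp, h⟩).2
    · intro h
      exact (h1.2 ⟨hp, h⟩).2

end Pool.Agent.H70.AB
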