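import Pool.Agent.H70.AB.Defs
import Pool.Agent.H3.EB.Main

/-!
# AB Small: bounded length `l < L` of the right block

For fixed `l` the number of `m < N` with `Sol m l n k` for some `n, k` (`3 ≤ k + l`) is `o(N)`:
* `k = l` (so `l ≥ 2`): `EB.main_eq` (`S l l N`);
* `k > l`: `EB.main_u` with `K = l + 1`, `k2 = l` (all `k` at once);
* `k < l`: `rad (B m l) = rad (B n k) ≤ B n k ≤ (n + k)^k ≤ m^(l-1)`, so by `EB.defect`
  `(m+1)^l ≤ B m l ≤ (l!)^(l*l) (A m l)^2 m^(l-1)`, i.e. `m ≤ (l!)^(l*l) (A m l)^2`; `EB.bad_count`.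
(`Sol` gives `(B n k).primeFactors = (B m l).primeFactors`; `EB.B`, `EB.Pair k l n m`.)  Then induction on `L`
as in LC Main `small_ks`.
-/

set_option autoImplicit false

open Finset

namespace Pool.Agent.H70.AB

private theorem dvd_B_iff {n k p : ℕ} (hp : p.Prime) :
    p ∣ H3.EB.B n k ↔ ∃ x ∈ Icc (n + 1) (n + k), p ∣ x := by
  unfold H3.EB.B
  rw [hp.prime.dvd_finsetProd_iff]
  constructor
  · rintro ⟨i, hi, h⟩
    rw [mem_range] at hi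
    exact ⟨n + i + 1, mem_Icc.2 ⟨by omega, by omega⟩, h⟩
  · rintro ⟨x, hx, h⟩
    rw [mem_Icc] at hx
    refine ⟨x - (n + 1), mem_range.2 (by omega), ?_⟩
    have : n + (x - (n + 1)) + 1 = x := by omega
    rwa [this]

private theorem Sol.pair {m l n k : ℕ} (h : Sol m l n k) : H3.EB.Pair k l n m := by
  refine ⟨h.le, ?_⟩
  ext p
  rw [Nat.mem_primeFactors, Nat.mem_primeFactors]
  constructor
  · rintro ⟨hp, hd, _⟩
    exact ⟨hp, (dvd_B_iff hp).2 ((h.iff p hp).1 ((dvd_B_iff hp).1 hd)), (H3.EB.B_pos m l).ne'⟩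
  · rintro ⟨hp, hd, _⟩
    exact ⟨hp, (dvd_B_iff hp).2 ((h.iff p hp).2 ((dvd_B_iff hp).1 hd)), (H3.EB.B_pos n k).ne'⟩

private theorem little (C a η : ℝ) (hC : 0 ≤ C) (ha : a < 1) (hη : 0 < η) : ∃ N0 : ℕ, ∀ N : ℕ, N0 ≤ N →
    C * (N : ℝ) ^ a ≤ η * N := by
  have h1 : Filter.Tendsto (fun N : ℕ => (N : ℝ) ^ (-(1 - a))) Filter.atTop (nhds 0) :=
    (tendsto_rpow_neg_atTop (by linarith : (0 : ℝ) < 1 - a)).comp tendsto_natCast_atTop_atTop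
  have h2 := h1.const_mul C
  rw [mul_zero] at h2
  obtain ⟨N0, hN0⟩ := Filter.eventually_atTop.1
    ((h2.eventually (gt_mem_nhds hη)).and (Filter.eventually_gt_atTop 0))
  refine ⟨N0, fun N hN => ?_⟩
  obtain ⟨g1, g2⟩ := hN0 N hN
  have hN : (0 : ℝ) < N := by exact_mod_cast g2
  have h3 : (N : ℝ) ^ a = (N : ℝ) ^ (-(1 - a)) * N := by
    rw [← Real.rpow_add_one hN.ne']
    congr 1
    ring
  rw [h3, ← mul_assoc]
  exact mul_le_mul_of_nonneg_right g1.le hN.le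

private theorem small_eq (l : ℕ) (hl : 2 ≤ l) (η : ℝ) (hη : 0 < η) : ∃ N0 : ℕ, ∀ N : ℕ, N0 ≤ N →
    (H3.LC.cnt N (fun m => ∃ n : ℕ, Sol m l n l) : ℝ) ≤ η * N := by
  classical
  obtain ⟨C, hC, h⟩ := H3.EB.main_eq l hl (1 / 6) (by norm_num)
  obtain ⟨N0, hN0⟩ := little C (2 / 3 + 1 / 6) η hC.le (by norm_num) hη
  refine ⟨max N0 1, fun N hN => ?_⟩
  refine le_trans ?_ ((h N (le_trans (le_max_right _ _) hN)).trans (hN0 N (le_trans (le_max_left _ _) hN)))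
  unfold H3.LC.cnt
  have h1 : ((range N).filter (fun m => ∃ n : ℕ, Sol m l n l)) ⊆ (H3.EB.S l l N).image Prod.snd := by
    intro m hm
    simp only [mem_filter, mem_range] at hm
    obtain ⟨hm, n, hs⟩ := hm
    exact mem_image.2 ⟨(n, m), H3.EB.mem_S.2 ⟨hm.le, Sol.pair hs⟩, rfl⟩
  exact_mod_cast (card_le_card h1).trans card_image_le

private theorem small_gt (l : ℕ) (hl : 1 ≤ l) (η : ℝ) (hη : 0 < η) : ∃ N0 : ℕ, ∀ N : ℕ, N0 ≤ N →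
    (H3.LC.cnt N (fun m => ∃ k n : ℕ, l < k ∧ Sol m l n k) : ℝ) ≤ η * N := by
  classical
  have hl0 : (0 : ℝ) < (l : ℝ) + 1 := by positivity
  have hlt : (l : ℝ) / ((l + 1 : ℕ) : ℝ) < 1 := by
    push_cast
    rw [div_lt_one hl0]
    linarith
  set e : ℝ := max (2 / 3) ((l : ℝ) / ((l + 1 : ℕ) : ℝ)) with he
  have he1 : e < 1 := max_lt (by norm_num) hlt
  obtain ⟨C, hC, h⟩ := H3.EB.main_u (l + 1) l hl (Nat.lt_succ_self l) ((1 - e) / 2) (by linarith)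
  obtain ⟨N0, hN0⟩ := little C (e + (1 - e) / 2) η hC.le (by linarith) hη
  refine ⟨max N0 1, fun N hN => ?_⟩
  set F := (range N).filter (fun m => ∃ k n : ℕ, l < k ∧ Sol m l n k) with hF
  have hex : ∀ m : ℕ, ∃ q : ℕ × ℕ, m ∈ F → l < q.1 ∧ Sol m l q.2 q.1 := by
    intro m
    by_cases hm : m ∈ F
    · have hm' := hm
      rw [hF, mem_filter] at hm'
      obtain ⟨_, k, n, hk, hs⟩ := hm'
      exact ⟨(k, n), fun _ => ⟨hk, hs⟩⟩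
    · exact ⟨(0, 0), fun h => absurd h hm⟩
  choose q hq using hex
  have h2 := h N (le_trans (le_max_right _ _) hN) (F.image fun m => ((q m).1, (q m).2, m)) (by
    intro t ht
    obtain ⟨m, hm, rfl⟩ := mem_image.1 ht
    have hm' := hm
    rw [hF, mem_filter, mem_range] at hm'
    exact ⟨(hq m hm).1, hm'.1.le, Sol.pair (hq m hm).2⟩)
  rw [card_image_of_injective _ (fun a b hab => (Prod.mk.inj (Prod.mk.inj hab).2).2)] at h2
  exact h2.trans (hN0 N (le_trans (le_max_left _ _) hN))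

private theorem bound_lt {m l n k : ℕ} (h : Sol m l n k) (hkl : k < l) :
    m ≤ (l.factorial) ^ (l * l) * (H3.EB.A m l) ^ 2 := by
  have h1 := Nat.le_of_dvd (Nat.mul_pos (Nat.mul_pos (pow_pos (Nat.factorial_pos _) _)
    (pow_pos (H3.EB.A_pos m l) _)) (H3.EB.rad_pos _)) (H3.EB.defect l m)
  have hm : 0 < m := by
    have := h.le
    have := h.hk
    omega
  have h2 : H3.EB.rad (H3.EB.B m l) ≤ m ^ (l - 1) := by
    rw [← (Sol.pair h).rad_eq]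
    calc H3.EB.rad (H3.EB.B n k) ≤ H3.EB.B n k :=
          Nat.le_of_dvd (H3.EB.B_pos n k) (H3.EB.rad_dvd _)
      _ ≤ (n + k) ^ k := H3.EB.B_le n k
      _ ≤ m ^ k := Nat.pow_le_pow_left h.le k
      _ ≤ m ^ (l - 1) := Nat.pow_le_pow_right hm (by omega)
  have h3 : m ^ l ≤ H3.EB.B m l := (Nat.pow_le_pow_left (Nat.le_succ m) l).trans (H3.EB.le_B m l)
  have h4 : m ^ (l - 1) * m = m ^ l := by
    rw [← pow_succ]
    congr 1
    omega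
  have h5 : m ^ (l - 1) * m ≤ m ^ (l - 1) * ((l.factorial) ^ (l * l) * (H3.EB.A m l) ^ 2) := by
    rw [h4, mul_comm (m ^ (l - 1))]
    exact h3.trans (h1.trans (Nat.mul_le_mul_left _ h2))
  exact Nat.le_of_mul_le_mul_left h5 (pow_pos hm _)

private theorem small_lt (l : ℕ) (η : ℝ) (hη : 0 < η) : ∃ N0 : ℕ, ∀ N : ℕ, N0 ≤ N →
    (H3.LC.cnt N (fun m => ∃ k n : ℕ, k < l ∧ Sol m l n k) : ℝ) ≤ η * N := by
  classical
  obtain ⟨C, hC, h⟩ := H3.EB.bad_count l (1 / 8) (by norm_num)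
  set D : ℝ := (((l.factorial) ^ (l * l) : ℕ) : ℝ) with hD
  have hD0 : 0 < D := by
    rw [hD]
    exact_mod_cast pow_pos (Nat.factorial_pos l) (l * l)
  obtain ⟨N1, hN1⟩ := little (D + 1) (1 / 2) (η / 2) (by positivity) (by norm_num) (by positivity)
  obtain ⟨N2, hN2⟩ := little (2 * C) (7 / 8) (η / 2) (by positivity) (by norm_num) (by positivity)
  refine ⟨max (max N1 N2) 1, fun N hN => ?_⟩
  have b1 := hN1 N (le_trans (le_trans (le_max_left _ _) (le_max_left _ _)) hN)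
  have b2 := hN2 N (le_trans (le_trans (le_max_right _ _) (le_max_left _ _)) hN)
  have b3 : 1 ≤ N := le_trans (le_max_right _ _) hN
  have hN1' : (1 : ℝ) ≤ N := by exact_mod_cast b3
  have hN0 : (0 : ℝ) < N := by linarith
  have hA0 : 0 < (N : ℝ) ^ (1 / 4 : ℝ) := Real.rpow_pos_of_pos hN0 _
  have b4 := h N b3 _ hA0
  set a : ℕ := ⌊D * (N : ℝ) ^ (1 / 2 : ℝ)⌋₊ + 1 with ha
  have hcnt : H3.LC.cnt N (fun m => ∃ k n : ℕ, k < l ∧ Sol m l n k) ≤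
      H3.LC.cnt N (fun m => m < a) + H3.LC.cnt N (fun m => (N : ℝ) ^ (1 / 4 : ℝ) < (H3.EB.A m l : ℝ)) := by
    refine le_trans (H3.LC.cnt_mono ?_) (H3.LC.cnt_or_le N _ _)
    rintro m _ ⟨k, n, hk, hs⟩
    by_contra hcon
    rw [not_or, not_lt, not_lt] at hcon
    obtain ⟨c1, c2⟩ := hcon
    have h1 := bound_lt hs hk
    have h2 : (m : ℝ) ≤ D * (H3.EB.A m l : ℝ) ^ 2 := by
      rw [hD]
      exact_mod_cast h1
    have h3 : (H3.EB.A m l : ℝ) ^ 2 ≤ ((N : ℝ) ^ (1 / 4 : ℝ)) ^ 2 := pow_le_pow_left₀ (Nat.cast_nonneg _) c2 2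
    have h4 : ((N : ℝ) ^ (1 / 4 : ℝ)) ^ 2 = (N : ℝ) ^ (1 / 2 : ℝ) := by
      rw [← Real.rpow_natCast, ← Real.rpow_mul hN0.le]
      norm_num
    rw [h4] at h3
    have h5 : (m : ℝ) ≤ D * (N : ℝ) ^ (1 / 2 : ℝ) := h2.trans (mul_le_mul_of_nonneg_left h3 hD0.le)
    have h6 : D * (N : ℝ) ^ (1 / 2 : ℝ) < a := by
      rw [ha]
      push_cast
      exact Nat.lt_floor_add_one _
    have h7 : (a : ℝ) ≤ m := by exact_mod_cast c1
    linarith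
  have h1 : (H3.LC.cnt N (fun m => m < a) : ℝ) ≤ (D + 1) * (N : ℝ) ^ (1 / 2 : ℝ) := by
    have h2 : (H3.LC.cnt N (fun m => m < a) : ℝ) ≤ a := by exact_mod_cast H3.LC.cnt_lt_le N a
    have h3 : (a : ℝ) ≤ D * (N : ℝ) ^ (1 / 2 : ℝ) + 1 := by
      rw [ha]
      push_cast
      have := Nat.floor_le (show 0 ≤ D * (N : ℝ) ^ (1 / 2 : ℝ) by positivity)
      linarith
    have h4 : (1 : ℝ) ≤ (N : ℝ) ^ (1 / 2 : ℝ) := Real.one_le_rpow hN1' (by norm_num)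
    calc (H3.LC.cnt N (fun m => m < a) : ℝ) ≤ D * (N : ℝ) ^ (1 / 2 : ℝ) + 1 := h2.trans h3
      _ ≤ D * (N : ℝ) ^ (1 / 2 : ℝ) + (N : ℝ) ^ (1 / 2 : ℝ) := by linarith
      _ = _ := by ring
  have h2 : (H3.LC.cnt N (fun m => (N : ℝ) ^ (1 / 4 : ℝ) < (H3.EB.A m l : ℝ)) : ℝ) ≤
      2 * C * (N : ℝ) ^ (7 / 8 : ℝ) := by
    have h3 : (H3.LC.cnt N (fun m => (N : ℝ) ^ (1 / 4 : ℝ) < (H3.EB.A m l : ℝ)) : ℝ) ≤
        C * (N : ℝ) ^ (1 / 8 : ℝ) * ((N : ℝ) / (N : ℝ) ^ (1 / 4 : ℝ) + (N : ℝ) ^ (2 / 3 : ℝ)) := by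
      refine le_trans (le_of_eq ?_) b4
      unfold H3.LC.cnt
      congr 2
    have h4 : (N : ℝ) / (N : ℝ) ^ (1 / 4 : ℝ) = (N : ℝ) ^ (3 / 4 : ℝ) := by
      rw [div_eq_iff hA0.ne', ← Real.rpow_add hN0]
      norm_num
    have h5 : (N : ℝ) ^ (2 / 3 : ℝ) ≤ (N : ℝ) ^ (3 / 4 : ℝ) :=
      Real.rpow_le_rpow_of_exponent_le hN1' (by norm_num)
    have h6 : (N : ℝ) ^ (1 / 8 : ℝ) * (N : ℝ) ^ (3 / 4 : ℝ) = (N : ℝ) ^ (7 / 8 : ℝ) := by
      rw [← Real.rpow_add hN0]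
      norm_num
    rw [h4] at h3
    have h7 : 0 ≤ C * (N : ℝ) ^ (1 / 8 : ℝ) := by positivity
    calc (H3.LC.cnt N (fun m => (N : ℝ) ^ (1 / 4 : ℝ) < (H3.EB.A m l : ℝ)) : ℝ)
        ≤ C * (N : ℝ) ^ (1 / 8 : ℝ) * ((N : ℝ) ^ (3 / 4 : ℝ) + (N : ℝ) ^ (2 / 3 : ℝ)) := h3
      _ ≤ C * (N : ℝ) ^ (1 / 8 : ℝ) * ((N : ℝ) ^ (3 / 4 : ℝ) + (N : ℝ) ^ (3 / 4 : ℝ)) :=
          mul_le_mul_of_nonneg_left (by linarith) h7
      _ = 2 * C * ((N : ℝ) ^ (1 / 8 : ℝ) * (N : ℝ) ^ (3 / 4 : ℝ)) := by ring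
      _ = _ := by rw [h6]
  have h3 : (H3.LC.cnt N (fun m => ∃ k n : ℕ, k < l ∧ Sol m l n k) : ℝ) ≤
      H3.LC.cnt N (fun m => m < a) + H3.LC.cnt N (fun m => (N : ℝ) ^ (1 / 4 : ℝ) < (H3.EB.A m l : ℝ)) := by
    exact_mod_cast hcnt
  linarith

private theorem small_one (l : ℕ) (η : ℝ) (hη : 0 < η) : ∃ N0 : ℕ, ∀ N : ℕ, N0 ≤ N →
    (H3.LC.cnt N (fun m => ∃ k n : ℕ, 3 ≤ k + l ∧ Sol m l n k) : ℝ) ≤ η * N := by
  rcases Nat.eq_zero_or_pos l with rfl | hl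
  · refine ⟨0, fun N _ => ?_⟩
    have : H3.LC.cnt N (fun m => ∃ k n : ℕ, 3 ≤ k + 0 ∧ Sol m 0 n k) = 0 :=
      H3.LC.cnt_eq_zero (by rintro m _ ⟨k, n, _, h⟩; exact absurd h.hl (lt_irrefl _))
    rw [this]
    push_cast
    positivity
  obtain ⟨N1, h1⟩ := small_gt l hl (η / 3) (by positivity)
  obtain ⟨N2, h2⟩ := small_lt l (η / 3) (by positivity)
  have h3 : ∃ N3 : ℕ, ∀ N : ℕ, N3 ≤ N →
      (H3.LC.cnt N (fun m => ∃ n : ℕ, 3 ≤ l + l ∧ Sol m l n l) : ℝ) ≤ η / 3 * N := by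
    rcases Nat.lt_or_ge l 2 with h | h
    · refine ⟨0, fun N _ => ?_⟩
      have : H3.LC.cnt N (fun m => ∃ n : ℕ, 3 ≤ l + l ∧ Sol m l n l) = 0 :=
        H3.LC.cnt_eq_zero (by rintro m _ ⟨n, h', _⟩; omega)
      rw [this]
      push_cast
      positivity
    · obtain ⟨N3, h3⟩ := small_eq l h (η / 3) (by positivity)
      refine ⟨N3, fun N hN => le_trans ?_ (h3 N hN)⟩
      exact_mod_cast H3.LC.cnt_mono (by rintro m _ ⟨n, _, h⟩; exact ⟨n, h⟩)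
  obtain ⟨N3, h3⟩ := h3
  refine ⟨max (max N1 N2) N3, fun N hN => ?_⟩
  have e1 := h1 N (le_trans (le_trans (le_max_left _ _) (le_max_left _ _)) hN)
  have e2 := h2 N (le_trans (le_trans (le_max_right _ _) (le_max_left _ _)) hN)
  have e3 := h3 N (le_trans (le_max_right _ _) hN)
  have e4 : H3.LC.cnt N (fun m => ∃ k n : ℕ, 3 ≤ k + l ∧ Sol m l n k) ≤
      H3.LC.cnt N (fun m => ∃ k n : ℕ, l < k ∧ Sol m l n k) +
        (H3.LC.cnt N (fun m => ∃ k n : ℕ, k < l ∧ Sol m l n k) +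
          H3.LC.cnt N (fun m => ∃ n : ℕ, 3 ≤ l + l ∧ Sol m l n l)) := by
    refine le_trans (H3.LC.cnt_mono ?_) (le_trans (H3.LC.cnt_or_le N _ _)
      (Nat.add_le_add_left (H3.LC.cnt_or_le N _ _) _))
    rintro m _ ⟨k, n, hk, hs⟩
    rcases lt_trichotomy k l with h | rfl | h
    · exact Or.inr (Or.inl ⟨k, n, h, hs⟩)
    · exact Or.inr (Or.inr ⟨n, hk, hs⟩)
    · exact Or.inl ⟨k, n, h, hs⟩
  have e5 : (H3.LC.cnt N (fun m => ∃ k n : ℕ, 3 ≤ k + l ∧ Sol m l n k) : ℝ) ≤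
      H3.LC.cnt N (fun m => ∃ k n : ℕ, l < k ∧ Sol m l n k) +
        (H3.LC.cnt N (fun m => ∃ k n : ℕ, k < l ∧ Sol m l n k) +
          H3.LC.cnt N (fun m => ∃ n : ℕ, 3 ≤ l + l ∧ Sol m l n l)) := by
    exact_mod_cast e4
  linarith

theorem small_l (L : ℕ) (η : ℝ) (hη : 0 < η) : ∃ N0 : ℕ, ∀ N : ℕ, N0 ≤ N →
    (H3.LC.cnt N (fun m => ∃ l k n : ℕ, l < L ∧ 3 ≤ k + l ∧ Sol m l n k) : ℝ) ≤ η * N := by
  induction L generalizing η with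
  | zero =>
    refine ⟨0, fun N _ => ?_⟩
    have : H3.LC.cnt N (fun m => ∃ l k n : ℕ, l < 0 ∧ 3 ≤ k + l ∧ Sol m l n k) = 0 :=
      H3.LC.cnt_eq_zero (by rintro m _ ⟨l, k, n, h, _⟩; exact absurd h (Nat.not_lt_zero _))
    rw [this]
    push_cast
    positivity
  | succ L ih =>
    obtain ⟨N1, h1⟩ := ih (η / 2) (by positivity)
    obtain ⟨N2, h2⟩ := small_one L (η / 2) (by positivity)
    refine ⟨max N1 N2, fun N hN => ?_⟩
    have e1 := h1 N (le_trans (le_max_left _ _) hN)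
    have e2 := h2 N (le_trans (le_max_right _ _) hN)
    have e3 : H3.LC.cnt N (fun m => ∃ l k n : ℕ, l < L + 1 ∧ 3 ≤ k + l ∧ Sol m l n k) ≤
        H3.LC.cnt N (fun m => ∃ l k n : ℕ, l < L ∧ 3 ≤ k + l ∧ Sol m l n k) +
          H3.LC.cnt N (fun m => ∃ k n : ℕ, 3 ≤ k + L ∧ Sol m L n k) := by
      refine le_trans (H3.LC.cnt_mono ?_) (H3.LC.cnt_or_le N _ _)
      rintro m _ ⟨l, k, n, hl, hk, hs⟩
      rcases Nat.lt_succ_iff_lt_or_eq.1 hl with h | rfl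
      · exact Or.inl ⟨l, k, n, h, hk, hs⟩
      · exact Or.inr ⟨k, n, hk, hs⟩
    have e4 : (H3.LC.cnt N (fun m => ∃ l k n : ℕ, l < L + 1 ∧ 3 ≤ k + l ∧ Sol m l n k) : ℝ) ≤
        H3.LC.cnt N (fun m => ∃ l k n : ℕ, l < L ∧ 3 ≤ k + l ∧ Sol m l n k) +
          H3.LC.cnt N (fun m => ∃ k n : ℕ, 3 ≤ k + L ∧ Sol m L n k) := by
      exact_mod_cast e3
    linarith

end Pool.Agent.H70.AB
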