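import Pool.Agent.H70.AB.RangeA
import Pool.Agent.H70.AB.RangeD
import Pool.Agent.H70.AB.Small

/-!
# AB Main
-/

set_option autoImplicit false

open Finset

namespace Pool.Agent.H70.AB

open H3.LC (cnt cnt_mono cnt_or_le cnt_lt_le)

/-- one of the two blocks is long, all large `m` -/
theorem long_blocks (ε : ℝ) (hε : 0 < ε) : ∃ m0 : ℕ, ∀ m : ℕ, m0 ≤ m → ∀ l n k : ℕ,
    ((m : ℝ) ^ (1 / 2 + ε) ≤ l ∨ (m : ℝ) ^ (1 / 2 + ε) ≤ k) → ¬ Sol m l n k := by
  obtain ⟨m1, h1⟩ := long_right (ε / 2) (half_pos hε)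
  obtain ⟨C, hC, hlen⟩ := length_le
  have ev : ∀ᶠ m : ℕ in Filter.atTop, Real.log m / (m : ℝ) ^ (ε / 2) < 1 / (2 * C) := by
    have h2 := ((isLittleO_log_rpow_atTop (half_pos hε)).tendsto_div_nhds_zero).comp
      (tendsto_natCast_atTop_atTop (R := ℝ))
    exact h2.eventually (gt_mem_nhds (by positivity))
  obtain ⟨m2, h2⟩ := Filter.eventually_atTop.1 ev
  refine ⟨max (max m1 m2) 2, fun m hm l n k hlk hsol => ?_⟩
  have hm1 : m1 ≤ m := (le_max_left _ _).trans ((le_max_left _ _).trans hm)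
  have hm2 : m2 ≤ m := (le_max_right _ _).trans ((le_max_left _ _).trans hm)
  have hm3 : 2 ≤ m := (le_max_right _ _).trans hm
  have hmR : (2 : ℝ) ≤ m := by exact_mod_cast hm3
  have hm0 : (0 : ℝ) < m := by linarith
  have hp : (0 : ℝ) < (m : ℝ) ^ (1 / 2 + ε / 2) := by positivity
  have hmono : (m : ℝ) ^ (1 / 2 + ε / 2) ≤ (m : ℝ) ^ (1 / 2 + ε) :=
    Real.rpow_le_rpow_of_exponent_le (by linarith) (by linarith)
  rcases le_or_gt ((m : ℝ) ^ (1 / 2 + ε / 2)) l with hl | hl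
  · exact h1 m hm1 l n k hl hsol
  · rcases hlk with h | h
    · linarith
    · have h3 := hlen m l n k hsol
      have h4 : Real.log ((m : ℝ) + l) ≤ 2 * Real.log m := by
        have h5 : (l : ℝ) ≤ m := by
          rcases le_or_gt (l : ℝ) m with h | h
          · exact h
          · exfalso
            -- a right block longer than `m` contains a prime above all elements of the left block
            have h6 : m < l := by exact_mod_cast h
            obtain ⟨p, hp, hmp, hpm⟩ := Nat.exists_prime_lt_and_le_two_mul m (by omega)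
            obtain ⟨x, hx, hpx⟩ := (hsol.iff p hp).2 ⟨p, mem_Icc.2 ⟨by omega, by omega⟩, dvd_rfl⟩
            rw [mem_Icc] at hx
            have h9 := Nat.le_of_dvd (by omega) hpx
            have := hsol.le
            omega
        have h6 : (m : ℝ) + l ≤ (m : ℝ) ^ 2 := by nlinarith
        have h7 := Real.log_le_log (by positivity) h6
        rw [Real.log_pow] at h7
        exact_mod_cast h7
      have h5 := h2 m hm2
      rw [div_lt_div_iff₀ (by positivity) (by positivity), one_mul] at h5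
      have hlpos : (0 : ℝ) < l := by exact_mod_cast hsol.hl
      have h6 : (m : ℝ) ^ (1 / 2 + ε) = (m : ℝ) ^ (1 / 2 + ε / 2) * (m : ℝ) ^ (ε / 2) := by
        rw [← Real.rpow_add hm0]
        congr 1
        ring
      have h7 : (0 : ℝ) < (m : ℝ) ^ (ε / 2) := by positivity
      have h8 : C * l * Real.log ((m : ℝ) + l) ≤ C * l * (2 * Real.log m) :=
        mul_le_mul_of_nonneg_left h4 (by positivity)
      have h9 : C * l * (2 * Real.log m) < l * (m : ℝ) ^ (ε / 2) := by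
        have h10 : (l : ℝ) * (Real.log m * (2 * C)) < l * (m : ℝ) ^ (ε / 2) := mul_lt_mul_of_pos_left h5 hlpos
        linarith
      have h10 : (l : ℝ) * (m : ℝ) ^ (ε / 2) ≤ (m : ℝ) ^ (1 / 2 + ε / 2) * (m : ℝ) ^ (ε / 2) :=
        mul_le_mul_of_nonneg_right hl.le h7.le
      rw [← h6] at h10
      linarith

theorem density_zero (η : ℝ) (hη : 0 < η) : ∃ N0 : ℕ, ∀ N : ℕ, N0 ≤ N →
    (cnt N (fun m => ∃ l k n : ℕ, 3 ≤ k + l ∧ Sol m l n k) : ℝ) ≤ η * N := by
  obtain ⟨ε, hε, hε1, K1, N1, hA⟩ := rangeA (η / 4) (by positivity)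
  obtain ⟨n0, hB⟩ := long_blocks (ε / 2) (by positivity)
  obtain ⟨N2, hS⟩ := small_l K1 (η / 4) (by positivity)
  obtain ⟨N3, hN3⟩ := exists_nat_ge (4 * (n0 : ℝ) / η)
  refine ⟨max (max N1 N2) N3, fun N hN => ?_⟩
  have a1 := hA N (le_trans (le_trans (le_max_left _ _) (le_max_left _ _)) hN)
  have a2 := hS N (le_trans (le_trans (le_max_right _ _) (le_max_left _ _)) hN)
  have a3 : (n0 : ℝ) ≤ η / 4 * N := by
    have h1 : 4 * (n0 : ℝ) / η ≤ N := hN3.trans (by exact_mod_cast le_trans (le_max_right _ _) hN)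
    rw [div_le_iff₀ hη] at h1
    linarith
  have e3 : cnt N (fun m => ∃ l k n : ℕ, 3 ≤ k + l ∧ Sol m l n k) ≤
      cnt N (fun m => ∃ l k n : ℕ, K1 ≤ l ∧ (l : ℝ) ≤ (N : ℝ) ^ (1 / 2 + ε / 2) ∧
        (k : ℝ) ≤ (N : ℝ) ^ (1 / 2 + ε / 2) ∧ Sol m l n k) +
        (cnt N (fun m => ∃ l k n : ℕ, l < K1 ∧ 3 ≤ k + l ∧ Sol m l n k) + cnt N (fun m => m < n0)) := by
    refine le_trans (cnt_mono ?_) (le_trans (cnt_or_le N _ _) (Nat.add_le_add_left (cnt_or_le N _ _) _))
    rintro m hm ⟨l, k, n, hkl, hs⟩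
    rcases lt_or_ge m n0 with h | h
    · exact Or.inr (Or.inr h)
    rcases lt_or_ge l K1 with h' | h'
    · exact Or.inr (Or.inl ⟨l, k, n, h', hkl, hs⟩)
    · have hmono : (m : ℝ) ^ (1 / 2 + ε / 2) ≤ (N : ℝ) ^ (1 / 2 + ε / 2) :=
        Real.rpow_le_rpow (Nat.cast_nonneg _) (by exact_mod_cast hm.le) (by positivity)
      refine Or.inl ⟨l, k, n, h', ?_, ?_, hs⟩
      · by_contra hcon
        rw [not_le] at hcon
        exact hB m h l n k (Or.inl (hmono.trans hcon.le)) hs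
      · by_contra hcon
        rw [not_le] at hcon
        exact hB m h l n k (Or.inr (hmono.trans hcon.le)) hs
  have a4 : (cnt N (fun m => m < n0) : ℝ) ≤ n0 := by exact_mod_cast cnt_lt_le N n0
  have e4 : (cnt N (fun m => ∃ l k n : ℕ, 3 ≤ k + l ∧ Sol m l n k) : ℝ) ≤
      cnt N (fun m => ∃ l k n : ℕ, K1 ≤ l ∧ (l : ℝ) ≤ (N : ℝ) ^ (1 / 2 + ε / 2) ∧
        (k : ℝ) ≤ (N : ℝ) ^ (1 / 2 + ε / 2) ∧ Sol m l n k) +
        (cnt N (fun m => ∃ l k n : ℕ, l < K1 ∧ 3 ≤ k + l ∧ Sol m l n k) + cnt N (fun m => m < n0)) := by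
    exact_mod_cast e3
  have hN0 : (0 : ℝ) ≤ N := Nat.cast_nonneg _
  nlinarith

end Pool.Agent.H70.AB
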