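import Pool.Agent.H70.AB.Ratio
import Pool.Agent.H3.LC.NonMain

/-!
# AB NonMain: a long right block: almost all the mass above `K = max (k, l)` has one ratio

Adaptation of LC NonMain.  `m^(1/2+ε) ≤ l ≤ m`, `Sol m l n k`, `k, l ≤ K`.  `F` from `exists_frac` with `T = K`, `Z = 2m/K`,
`lam = 2K/m`, so `Z lam = 4`.
-/

set_option autoImplicit false

open Finset

namespace Pool.Agent.H70.AB

theorem non_main (ε : ℝ) (hε : 0 < ε) : ∃ C : ℝ, 0 < C ∧ ∃ m0 : ℕ, ∀ m : ℕ, m0 ≤ m → ∀ l n k K : ℕ,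
    (m : ℝ) ^ (1 / 2 + ε) ≤ l → l ≤ m → Sol m l n k → k ≤ K → l ≤ K →
    ∃ r : ℚ, ∃ S : Finset ℕ, S ⊆ H3.LC.E K m l ∧
      (∀ y ∈ S, ∃ x ∈ Icc (n + 1) (n + k), (x : ℚ) = r * (y : ℚ)) ∧
      ∑ y ∈ H3.LC.E K m l \ S, H3.LC.ms K y ≤ C * l := by
  classical
  obtain ⟨C, hC, hBT⟩ := H3.LC.brun_titchmarsh
  obtain ⟨m0, hm0⟩ : ∃ m0 : ℕ, ∀ m : ℕ, m0 ≤ m → 2 ≤ (m : ℝ) ^ ε := by
    have h1 := (tendsto_rpow_atTop hε).comp (tendsto_natCast_atTop_atTop (R := ℝ))
    exact Filter.eventually_atTop.1 (h1.eventually_ge_atTop 2)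
  refine ⟨64 * C / ε, by positivity, max m0 2, fun m hm l n k K hl hlm hsol hkK hlK => ?_⟩
  have hm2 : 2 ≤ m := le_trans (le_max_right _ _) hm
  have hmε := hm0 m (le_trans (le_max_left _ _) hm)
  have hmR : (2 : ℝ) ≤ m := by exact_mod_cast hm2
  have hm0R : (0 : ℝ) < m := by linarith
  have hl0 : 0 < l := hsol.hl
  have hlR : (0 : ℝ) < l := by exact_mod_cast hl0
  have hK0 : 0 < K := lt_of_lt_of_le hl0 hlK
  have hKR : (0 : ℝ) < K := by exact_mod_cast hK0
  have hlKR : (l : ℝ) ≤ K := by exact_mod_cast hlK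
  have hkKR : (k : ℝ) ≤ K := by exact_mod_cast hkK
  obtain ⟨F, hF⟩ := exists_frac hsol (K : ℝ)
  rcases (H3.LC.E K m l).eq_empty_or_nonempty with hE | ⟨x0, hx0⟩
  · refine ⟨0, ∅, empty_subset _, fun x hx => absurd hx (notMem_empty x), ?_⟩
    rw [hE, empty_sdiff, sum_empty]
    positivity
  set R := (H3.LC.E K m l).image F with hRdef
  obtain ⟨f0, hf0, hmin⟩ := exists_min_image R (fun f => f.den) ⟨F x0, mem_image_of_mem F hx0⟩
  have hmem : ∀ y ∈ H3.LC.E K m l, m + 1 ≤ y ∧ y ≤ m + l := by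
    intro y hy
    exact mem_Icc.1 (mem_filter.1 hy).1
  have hlogm : 0 < Real.log m := Real.log_pos (by linarith)
  have hms : ∀ y ∈ H3.LC.E K m l, H3.LC.ms K y ≤ 2 * Real.log m := by
    intro y hy
    obtain ⟨h1, h2⟩ := hmem y hy
    refine (H3.LC.ms_le_log (by omega)).trans ?_
    have h3 : (y : ℝ) ≤ (m : ℝ) ^ 2 := by
      have : y ≤ m ^ 2 := by nlinarith
      exact_mod_cast this
    have h4 := Real.log_le_log (by exact_mod_cast (by omega : 0 < y)) h3
    rw [Real.log_pow] at h4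
    exact_mod_cast h4
  refine ⟨f0, (H3.LC.E K m l).filter (fun y => F y = f0), filter_subset _ _, ?_, ?_⟩
  · intro y hy
    rw [mem_filter] at hy
    obtain ⟨x, hx, p, hp, hkp, hpy, hpx, hFy, hden⟩ := hF y hy.1
    refine ⟨x, hx, ?_⟩
    have hy0 : (y : ℚ) ≠ 0 := by
      have := hmem y hy.1
      exact_mod_cast (by omega : y ≠ 0)
    rw [← hy.2, hFy]
    field_simp
  -- constants
  set Z' : ℕ := 2 * m / K with hZ'
  set Z : ℝ := 2 * m / K with hZ
  set lam : ℝ := 2 * (K : ℝ) / m with hlam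
  have hZl : Z * lam = 4 := by
    rw [hZ, hlam]
    field_simp
    norm_num
  have hlam0 : 0 ≤ lam := by positivity
  have hZ0 : 0 ≤ Z := by positivity
  have hZZ : (Z' : ℝ) ≤ Z := by
    rw [hZ', hZ]
    have := Nat.cast_div_le (α := ℝ) (m := 2 * m) (n := K)
    push_cast at this
    exact this
  have hint : ∀ f ∈ R, ((n : ℝ) + 1) / ((m : ℝ) + l) ≤ (f : ℝ) ∧
      (f : ℝ) ≤ ((n : ℝ) + 1) / ((m : ℝ) + l) + lam := by
    intro f hf
    obtain ⟨y, hy, rfl⟩ := mem_image.1 hf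
    obtain ⟨x, hx, p, hp, hkp, hpy, hpx, hFy, hden⟩ := hF y hy
    rw [hFy]
    push_cast
    exact frac_interval hsol hkKR hlKR hx (mem_filter.1 hy).1
  -- the covering
  have hcover : H3.LC.E K m l \ (H3.LC.E K m l).filter (fun y => F y = f0) ⊆
      (Icc 1 Z').biUnion fun c => ((R.erase f0).filter (fun f => ((f.den * c : ℕ) : ℝ) ≤ Z)).biUnion fun f =>
        (H3.LC.nonmainP m l (f.den * c)).image (fun p => f.den * c * p) := by
    intro y hy
    rw [mem_sdiff, mem_filter, not_and] at hy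
    obtain ⟨hyE, hyf⟩ := hy
    have hyf' := hyf hyE
    obtain ⟨x, hx, p, hp, hkp, hpy, hpx, hFy, hden⟩ := hF y hyE
    obtain ⟨c, hc⟩ := hden
    obtain ⟨h1, h2⟩ := hmem y hyE
    have hkp' : K < p := by exact_mod_cast hkp
    have hc0 : 0 < c := by
      rcases Nat.eq_zero_or_pos c with h | h
      · rw [h, mul_zero] at hc; omega
      · exact h
    have hd0 : 0 < (F y).den := (F y).den_pos
    have hyw : y = (F y).den * c * p := by rw [mul_right_comm]; exact hc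
    have hwZ : (F y).den * c ≤ Z' := by
      rw [hZ', Nat.le_div_iff_mul_le hK0]
      calc (F y).den * c * K ≤ (F y).den * c * p := Nat.mul_le_mul_left _ hkp'.le
        _ = y := hyw.symm
        _ ≤ 2 * m := by omega
    have hcZ : c ≤ Z' := le_trans (Nat.le_mul_of_pos_left c hd0) hwZ
    rw [mem_biUnion]
    refine ⟨c, mem_Icc.2 ⟨hc0, hcZ⟩, ?_⟩
    rw [mem_biUnion]
    refine ⟨F y, mem_filter.2 ⟨mem_erase.2 ⟨hyf', mem_image_of_mem F hyE⟩, ?_⟩, ?_⟩
    · exact le_trans (by exact_mod_cast hwZ) hZZ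
    · rw [mem_image]
      refine ⟨p, H3.LC.nonmain_mem (Nat.mul_pos hd0 hc0) hp ?_ ?_, hyw.symm⟩
      · rw [← hyw]; omega
      · rw [← hyw]; exact h2
  -- the logarithm
  have hL : 0 < ε * Real.log m := by positivity
  have hkw : ∀ w : ℕ, 0 < w → (w : ℝ) ≤ Z → ε * Real.log m ≤ Real.log ((l : ℝ) / w) := by
    intro w hw hwZ
    have hwR : (0 : ℝ) < w := by exact_mod_cast hw
    have h1 : (m : ℝ) ^ ε ≤ (l : ℝ) / w := by
      have h2 : (l : ℝ) / Z ≤ (l : ℝ) / w := by gcongr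
      refine le_trans ?_ h2
      rw [hZ]
      have h3 : (l : ℝ) / (2 * m / K) = (l : ℝ) * K / (2 * m) := by
        field_simp
      rw [h3, le_div_iff₀ (by positivity)]
      have h4 : ((m : ℝ) ^ (1 / 2 + ε)) ^ 2 ≤ (l : ℝ) * K := by
        have h0 : (0 : ℝ) ≤ (m : ℝ) ^ (1 / 2 + ε) := by positivity
        calc ((m : ℝ) ^ (1 / 2 + ε)) ^ 2 ≤ (l : ℝ) ^ 2 := by gcongr
          _ = (l : ℝ) * l := sq _
          _ ≤ (l : ℝ) * K := mul_le_mul_of_nonneg_left hlKR hlR.le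
      refine le_trans ?_ h4
      have h5 : ((m : ℝ) ^ (1 / 2 + ε)) ^ 2 = m * ((m : ℝ) ^ ε * (m : ℝ) ^ ε) := by
        rw [Real.rpow_add hm0R, mul_pow, ← Real.sqrt_eq_rpow, Real.sq_sqrt hm0R.le]
        ring
      rw [h5]
      have h6 : (0 : ℝ) ≤ (m : ℝ) ^ ε := by positivity
      nlinarith [mul_nonneg h6 hm0R.le]
    have h7 := Real.log_le_log (by positivity) h1
    rwa [Real.log_rpow hm0R] at h7
  -- the number of elements
  have hcard : ((H3.LC.E K m l \ (H3.LC.E K m l).filter (fun y => F y = f0)).card : ℝ) ≤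
      2 * C * l / (ε * Real.log m) * 16 := by
    have h1 : (H3.LC.E K m l \ (H3.LC.E K m l).filter (fun y => F y = f0)).card ≤
        ∑ c ∈ Icc 1 Z', ∑ f ∈ (R.erase f0).filter (fun f => ((f.den * c : ℕ) : ℝ) ≤ Z),
          (H3.LC.nonmainP m l (f.den * c)).card := by
      refine (card_le_card hcover).trans (card_biUnion_le.trans (sum_le_sum fun c _ => ?_))
      exact card_biUnion_le.trans (sum_le_sum fun f _ => card_image_le)
    have h2 : ((∑ c ∈ Icc 1 Z', ∑ f ∈ (R.erase f0).filter (fun f => ((f.den * c : ℕ) : ℝ) ≤ Z),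
          (H3.LC.nonmainP m l (f.den * c)).card : ℕ) : ℝ) ≤
        ∑ c ∈ Icc 1 Z', ∑ f ∈ (R.erase f0).filter (fun f => ((f.den * c : ℕ) : ℝ) ≤ Z),
          2 * C * l / (ε * Real.log m) * (1 / ((f.den * c : ℕ) : ℝ)) := by
      push_cast
      refine sum_le_sum fun c hc => sum_le_sum fun f hf => ?_
      have hc0 : 0 < c := (mem_Icc.1 hc).1
      have h3 := H3.LC.nonmain_card hC hBT (n := m) (k := l) (w := f.den * c) hL (Nat.mul_pos f.den_pos hc0)
        (hkw _ (Nat.mul_pos f.den_pos hc0) (by exact_mod_cast (mem_filter.1 hf).2))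
      push_cast at h3
      exact h3
    have h4 : ∀ c ∈ Icc 1 Z', ∑ f ∈ (R.erase f0).filter (fun f => ((f.den * c : ℕ) : ℝ) ≤ Z),
          2 * C * l / (ε * Real.log m) * (1 / ((f.den * c : ℕ) : ℝ)) ≤
        2 * C * l / (ε * Real.log m) * (8 * (1 / (c : ℝ) ^ 2)) := by
      intro c hc
      have hc0 : 0 < c := (mem_Icc.1 hc).1
      have hcR : (0 : ℝ) < c := by exact_mod_cast hc0
      rw [← mul_sum]
      refine mul_le_mul_of_nonneg_left ?_ (by positivity)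
      have h5 := H3.LC.nonmain_inner hf0 hmin hlam0 hZ0 hint c hc0
      have h6 : ∑ f ∈ (R.erase f0).filter (fun f => ((f.den * c : ℕ) : ℝ) ≤ Z), 1 / ((f.den * c : ℕ) : ℝ) =
          (1 / (c : ℝ)) * ∑ f ∈ (R.erase f0).filter (fun f => ((f.den * c : ℕ) : ℝ) ≤ Z), 1 / (f.den : ℝ) := by
        rw [mul_sum]
        refine sum_congr rfl fun f _ => ?_
        push_cast
        rw [one_div_mul_one_div, mul_comm]
      rw [h6]
      calc (1 / (c : ℝ)) * ∑ f ∈ (R.erase f0).filter (fun f => ((f.den * c : ℕ) : ℝ) ≤ Z), 1 / (f.den : ℝ)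
          ≤ (1 / (c : ℝ)) * (2 * (Z / c) * lam) := mul_le_mul_of_nonneg_left h5 (by positivity)
        _ = 2 * (Z * lam) * (1 / (c : ℝ) ^ 2) := by field_simp
        _ = 8 * (1 / (c : ℝ) ^ 2) := by rw [hZl]; norm_num
    have h7 : ∑ c ∈ Icc 1 Z', 2 * C * l / (ε * Real.log m) * (8 * (1 / (c : ℝ) ^ 2)) ≤
        2 * C * l / (ε * Real.log m) * 16 := by
      rw [← mul_sum, ← mul_sum]
      refine mul_le_mul_of_nonneg_left ?_ (by positivity)
      have := H3.LC.nonmain_sum_sq_le Z'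
      linarith
    calc ((H3.LC.E K m l \ (H3.LC.E K m l).filter (fun y => F y = f0)).card : ℝ) ≤ _ := by exact_mod_cast h1
      _ ≤ _ := h2
      _ ≤ _ := sum_le_sum h4
      _ ≤ _ := h7
  calc ∑ y ∈ H3.LC.E K m l \ (H3.LC.E K m l).filter (fun y => F y = f0), H3.LC.ms K y
      ≤ ∑ y ∈ H3.LC.E K m l \ (H3.LC.E K m l).filter (fun y => F y = f0), 2 * Real.log m :=
        sum_le_sum fun y hy => hms y (mem_sdiff.1 hy).1
    _ = ((H3.LC.E K m l \ (H3.LC.E K m l).filter (fun y => F y = f0)).card : ℝ) * (2 * Real.log m) := by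
        rw [sum_const, nsmul_eq_mul]
    _ ≤ 2 * C * l / (ε * Real.log m) * 16 * (2 * Real.log m) :=
        mul_le_mul_of_nonneg_right hcard (by positivity)
    _ = 64 * C / ε * l := by
        field_simp
        norm_num

end Pool.Agent.H70.AB
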