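import Pool.Agent.H70.AB.Ratio
import Pool.Agent.H3.LC.Good

/-!
# AB RangeA: `K1 ≤ l`, `k, l ≤ N^(1/2+ε/2)`, almost all `m < N`

Adaptation of LC RangeA.  `m` and `m/2` are Good (LC Good), `T = N^(1/2+ε)`.  `E T m l` has at least `(2/5) l` elements,
by `single_ratio` and `ratio_cases` a prime `q` divides all of them; `q ≥ 3` contradicts the number, `q = 2` the mass of the
block at `m/2`.
-/

set_option autoImplicit false

open Finset

namespace Pool.Agent.H70.AB

open H3.LC (Good cnt ms ms_le_log ms_eq_zero big cnt_mono cnt_or_le cnt_lt_le)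

private theorem ra_ms_two {T : ℝ} (hT : 2 ≤ T) {y : ℕ} (hy : y ≠ 0) : ms T (2 * y) = ms T y := by
  have hb : big T (2 * y) = big T y := by
    unfold H3.LC.big
    rw [Nat.primeFactors_mul two_ne_zero hy]
    ext p
    rw [mem_filter, mem_filter, mem_union]
    constructor
    · rintro ⟨h1 | h1, h2⟩
      · exfalso
        have h3 : p ∣ 2 := Nat.dvd_of_mem_primeFactors h1
        have h4 : p ≤ 2 := Nat.le_of_dvd two_pos h3
        have h5 : (p : ℝ) ≤ 2 := by exact_mod_cast h4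
        linarith
      · exact ⟨h1, h2⟩
    · rintro ⟨h1, h2⟩
      exact ⟨Or.inr h1, h2⟩
  unfold H3.LC.ms
  rw [hb]

private theorem ra_mem_E {T : ℝ} {n k x : ℕ} (hx : x ∈ Icc (n + 1) (n + k)) (h : ms T x ≠ 0) :
    x ∈ H3.LC.E T n k := by
  unfold H3.LC.E
  rw [mem_filter]
  refine ⟨hx, ?_⟩
  by_contra h'
  exact h (ms_eq_zero h')

private theorem ra_sum_E (T : ℝ) (n k : ℕ) :
    ∑ x ∈ Icc (n + 1) (n + k), ms T x = ∑ x ∈ H3.LC.E T n k, ms T x := by
  symm
  refine sum_subset (filter_subset _ _) fun x hx hx' => ?_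
  by_contra h
  exact hx' (ra_mem_E hx h)

private theorem ra_even {T : ℝ} (hT : 2 ≤ T) {n k : ℕ} (h : ∀ x ∈ H3.LC.E T n k, 2 ∣ x) :
    ∑ x ∈ Icc (n + 1) (n + k), ms T x = ∑ y ∈ Icc (n / 2 + 1) ((n + k) / 2), ms T y := by
  have h1 : ∑ y ∈ Icc (n / 2 + 1) ((n + k) / 2), ms T y =
      ∑ x ∈ (Icc (n / 2 + 1) ((n + k) / 2)).image (fun y => 2 * y), ms T x := by
    rw [sum_image]
    · refine sum_congr rfl fun y hy => ?_
      rw [mem_Icc] at hy
      exact (ra_ms_two hT (by omega)).symm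
    · intro a _ b _ hab
      simpa using hab
  rw [h1]
  symm
  refine sum_subset ?_ fun x hx hx' => ?_
  · intro x hx
    rw [mem_image] at hx
    obtain ⟨y, hy, rfl⟩ := hx
    rw [mem_Icc] at hy ⊢
    omega
  · by_contra h2
    obtain ⟨y, rfl⟩ := h x (ra_mem_E hx h2)
    apply hx'
    rw [mem_image]
    rw [mem_Icc] at hx
    refine ⟨y, ?_, rfl⟩
    rw [mem_Icc]
    omega

private theorem ra_core {N m l n k K1 : ℕ} {T K : ℝ} (hG : Good N T (1 / 100) K1 m)
    (hG2 : Good N T (1 / 100) K1 (m / 2)) (hL : 0 < Real.log N) (hl1 : 4 * K1 + 1000 ≤ l) (hlN : l ≤ N)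
    (hkK : (k : ℝ) ≤ K) (hlK : (l : ℝ) ≤ K) (hT2 : 2 ≤ T) (h : Sol m l n k) (hmN : m < N)
    (hlog : 2 / 5 * (Real.log N + Real.log 2) < 49 / 100 * Real.log N)
    (hc : (l : ℝ) * (2 * (((m : ℝ) + l) / T) * (2 * K / m)) +
      2 * (((m : ℝ) + l) / T) ^ 2 * (2 * K / m) < 2 / 5 * (l : ℝ)) : False := by
  have hl0 : (1000 : ℝ) ≤ l := by
    have : 1000 ≤ l := by omega
    exact_mod_cast this
  have hN0 : 0 < N := by omega
  have hN0' : (0 : ℝ) < N := by exact_mod_cast hN0
  -- the mass of the whole block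
  have hm := hG l (by omega) hlN
  rw [abs_le] at hm
  have hlow : 49 / 100 * (l : ℝ) * Real.log N ≤ ∑ y ∈ Icc (m + 1) (m + l), ms T y := by
    have := hm.1
    nlinarith [this]
  -- number of elements of E
  have hcard : 2 / 5 * (l : ℝ) < ((H3.LC.E T m l).card : ℝ) := by
    have h1 : ∑ y ∈ Icc (m + 1) (m + l), ms T y ≤
        ((H3.LC.E T m l).card : ℝ) * (Real.log N + Real.log 2) := by
      rw [ra_sum_E, ← nsmul_eq_mul]
      refine sum_le_card_nsmul _ _ _ fun y hy => ?_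
      have hy' := (mem_filter.1 hy).1
      rw [mem_Icc] at hy'
      have hy0 : y ≠ 0 := by omega
      refine (ms_le_log hy0).trans ?_
      rw [← Real.log_mul hN0'.ne' two_ne_zero]
      refine Real.log_le_log (by exact_mod_cast Nat.pos_of_ne_zero hy0) ?_
      have h2 : y ≤ N * 2 := by omega
      exact_mod_cast h2
    by_contra hcon
    push Not at hcon
    have hpos : 0 < Real.log N + Real.log 2 := by
      have := Real.log_pos (one_lt_two)
      linarith
    have h2 : ((H3.LC.E T m l).card : ℝ) * (Real.log N + Real.log 2) ≤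
        2 / 5 * (l : ℝ) * (Real.log N + Real.log 2) := mul_le_mul_of_nonneg_right hcon hpos.le
    have h3 : (l : ℝ) * (2 / 5 * (Real.log N + Real.log 2)) < l * (49 / 100 * Real.log N) :=
      mul_lt_mul_of_pos_left hlog (by linarith)
    nlinarith [h1, h2, h3, hlow]
  obtain ⟨r, hr⟩ := single_ratio h (by linarith) hkK hlK (hc.trans hcard)
  have hne : (H3.LC.E T m l).Nonempty := by
    rw [← card_pos]
    have h5 : (0 : ℝ) < ((H3.LC.E T m l).card : ℝ) := by linarith
    exact_mod_cast h5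
  obtain ⟨q, hq, hdiv⟩ := ratio_cases h.le hne (fun y hy => by
    have := (mem_Icc.1 (mem_filter.1 hy).1).1
    omega) hr
  rcases lt_or_ge q 3 with hq3 | hq3
  · -- q = 2
    have hq2 : q = 2 := by
      have := hq.two_le
      omega
    subst hq2
    have he := ra_even hT2 hdiv
    set l' := (m + l) / 2 - m / 2 with hl'
    have h1 : m / 2 + l' = (m + l) / 2 := by omega
    have h2 := hG2 l' (by omega) (by omega)
    rw [h1, ← he, abs_le] at h2
    have h3 : ((2 * l' : ℕ) : ℝ) ≤ ((l + 1 : ℕ) : ℝ) := by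
      have : 2 * l' ≤ l + 1 := by omega
      exact_mod_cast this
    push_cast at h3
    have h4 : ∑ y ∈ Icc (m + 1) (m + l), ms T y ≤ 51 / 100 * (l' : ℝ) * Real.log N := by
      have := h2.2
      nlinarith [this]
    have h5 : 49 / 100 * (l : ℝ) ≤ 51 / 100 * (l' : ℝ) := by
      have h6 := hlow.trans h4
      exact le_of_mul_le_mul_right h6 hL
    linarith
  · -- q ≥ 3
    have h1 : H3.LC.E T m l ⊆ (Icc (m + 1) (m + l)).filter (fun y => q ∣ y) := by
      intro y hy
      rw [mem_filter]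
      exact ⟨(mem_filter.1 hy).1, hdiv y hy⟩
    have h2 := (card_le_card h1).trans (H3.LC.card_multiples_le m l (by omega : 0 < q))
    have h3 : l / q ≤ l / 3 := Nat.div_le_div_left hq3 (by norm_num)
    have h4 : 3 * (l / 3) ≤ l := Nat.mul_div_le l 3
    have h5 : 3 * (H3.LC.E T m l).card ≤ l + 3 := by omega
    have h6 : (3 : ℝ) * ((H3.LC.E T m l).card : ℝ) ≤ l + 3 := by exact_mod_cast h5
    linarith

private theorem ra_half (N : ℕ) (Q : ℕ → Prop) : cnt N (fun n => Q (n / 2)) ≤ 2 * cnt N Q := by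
  classical
  have h1 : cnt N (fun n => Q (n / 2)) ≤
      ((((range N).filter Q).image (fun j => 2 * j)) ∪ (((range N).filter Q).image (fun j => 2 * j + 1))).card := by
    unfold H3.LC.cnt
    refine card_le_card fun n hn => ?_
    simp only [mem_filter, mem_range] at hn
    rw [mem_union, mem_image, mem_image]
    rcases Nat.even_or_odd' n with ⟨c, hc | hc⟩
    · refine Or.inl ⟨n / 2, ?_, by omega⟩
      simp only [mem_filter, mem_range]
      exact ⟨by omega, hn.2⟩
    · refine Or.inr ⟨n / 2, ?_, by omega⟩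
      simp only [mem_filter, mem_range]
      exact ⟨by omega, hn.2⟩
  refine h1.trans ((card_union_le _ _).trans ?_)
  have h2 := card_image_le (s := (range N).filter Q) (f := fun j => 2 * j)
  have h3 := card_image_le (s := (range N).filter Q) (f := fun j => 2 * j + 1)
  have h4 : cnt N Q = ((range N).filter Q).card := by
    unfold H3.LC.cnt
    congr 1
  omega

private theorem ra_count (N c1 : ℕ) (Q Q1 : ℕ → Prop)
    (h : ∀ n, n < N → Q n → n < c1 ∨ (Q1 n ∨ Q1 (n / 2))) : cnt N Q ≤ c1 + 3 * cnt N Q1 := by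
  have h1 := cnt_mono h
  have h2 := cnt_or_le N (fun n => n < c1) (fun n => Q1 n ∨ Q1 (n / 2))
  have h3 := cnt_or_le N Q1 (fun n => Q1 (n / 2))
  have h4 := ra_half N Q1
  have h5 := cnt_lt_le N c1
  omega

private theorem ra_num {η s T m l N K D : ℝ} (hη : 0 < η) (hTpos : 0 < T) (hNpos : 0 < N) (hmpos : 0 < m)
    (hlpos : 0 < l) (hmN : m ≤ N) (hlN : l ≤ N) (hm8 : η / 8 * N ≤ m) (hK0 : 0 < K) (hKT : K ≤ T * s)
    (hKs : K * s ≤ D * l) (hNT : N ≤ T ^ 2 * s ^ 2) (hD : 1 ≤ D) (hspos : 0 < s) (hsN : 1000 * D * s < η) :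
    l * (2 * ((m + l) / T) * (2 * K / m)) + 2 * ((m + l) / T) ^ 2 * (2 * K / m) < 2 / 5 * l := by
  have ha : (m + l) / T ≤ 2 * N / T := div_le_div_of_nonneg_right (by linarith) hTpos.le
  have ha0 : 0 ≤ (m + l) / T := by positivity
  have hb : 2 * K / m ≤ 16 * K / (η * N) := by
    rw [div_le_div_iff₀ hmpos (by positivity)]
    nlinarith [hm8, hK0]
  have hb0 : 0 ≤ 2 * K / m := by positivity
  have h1 : 2 * ((m + l) / T) * (2 * K / m) ≤ 64 * s / η := by
    calc 2 * ((m + l) / T) * (2 * K / m)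
        ≤ 2 * (2 * N / T) * (16 * K / (η * N)) := by gcongr
      _ = 64 * K / (T * η) := by
          field_simp
          ring
      _ ≤ 64 * s / η := by
          rw [div_le_div_iff₀ (by positivity) hη]
          nlinarith [hKT, hη]
  have h2 : 2 * ((m + l) / T) ^ 2 * (2 * K / m) ≤ l * (128 * D * s / η) := by
    calc 2 * ((m + l) / T) ^ 2 * (2 * K / m)
        ≤ 2 * (2 * N / T) ^ 2 * (16 * K / (η * N)) := by gcongr
      _ = 128 * (N / T ^ 2) * K / η := by
          field_simp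
          ring
      _ ≤ 128 * s ^ 2 * K / η := by
          have h5 : N / T ^ 2 ≤ s ^ 2 := by
            rw [div_le_iff₀ (by positivity)]
            linarith
          gcongr
      _ = 128 * s * (K * s) / η := by ring
      _ ≤ 128 * s * (D * l) / η := by gcongr
      _ = l * (128 * D * s / η) := by ring
  have h3 : l * (2 * ((m + l) / T) * (2 * K / m)) ≤ l * (64 * s / η) :=
    mul_le_mul_of_nonneg_left h1 hlpos.le
  have h4 : 64 * s / η + 128 * D * s / η < 2 / 5 := by
    rw [← add_div, div_lt_iff₀ hη]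
    nlinarith
  nlinarith [h2, h3, h4, hlpos]

theorem rangeA (η : ℝ) (hη : 0 < η) : ∃ ε : ℝ, 0 < ε ∧ ε ≤ 1 / 4 ∧ ∃ K1 N0 : ℕ, ∀ N : ℕ, N0 ≤ N →
    (cnt N (fun m => ∃ l k n : ℕ, K1 ≤ l ∧ (l : ℝ) ≤ (N : ℝ) ^ (1 / 2 + ε / 2) ∧
      (k : ℝ) ≤ (N : ℝ) ^ (1 / 2 + ε / 2) ∧ Sol m l n k) : ℝ) ≤ η * N := by
  obtain ⟨ε, hε, hε4, K1, N1, hgood⟩ := H3.LC.good_density (1 / 100) (η / 8) (η / 24) (by norm_num) (by positivity)
    (by positivity)
  obtain ⟨C, hC, hlen⟩ := length_le
  refine ⟨ε, hε, hε4, 4 * K1 + 1000, ?_⟩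
  set D : ℝ := 2 * C + 1 with hDdef
  have hD1 : 1 ≤ D := by linarith
  -- eventual numerical facts
  have ev1 : ∀ᶠ N : ℕ in Filter.atTop, 100 ≤ Real.log N :=
    (Real.tendsto_log_atTop.comp tendsto_natCast_atTop_atTop).eventually_ge_atTop 100
  have ev2 : ∀ᶠ N : ℕ in Filter.atTop, (N : ℝ) ^ (-(ε / 2)) < η / (1000 * D) := by
    have h1 := (tendsto_rpow_neg_atTop (half_pos hε)).comp
      (tendsto_natCast_atTop_atTop (R := ℝ))
    have h2 := h1.eventually (gt_mem_nhds (show (0 : ℝ) < η / (1000 * D) by positivity))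
    exact h2
  have ev3 : ∀ᶠ N : ℕ in Filter.atTop, 48 / η ≤ (N : ℝ) :=
    tendsto_natCast_atTop_atTop.eventually_ge_atTop _
  have ev4 : ∀ᶠ N : ℕ in Filter.atTop, Real.log N / (N : ℝ) ^ (ε / 2) < 1 := by
    have h1 := ((isLittleO_log_rpow_atTop (half_pos hε)).tendsto_div_nhds_zero).comp
      (tendsto_natCast_atTop_atTop (R := ℝ))
    exact h1.eventually (gt_mem_nhds one_pos)
  obtain ⟨N2, hN2⟩ := Filter.eventually_atTop.1 (ev1.and (ev2.and (ev3.and ev4)))
  refine ⟨max (max N1 N2) 2, fun N hN => ?_⟩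
  have hNN1 : N1 ≤ N := (le_max_left _ _).trans ((le_max_left _ _).trans hN)
  have hNN2 : N2 ≤ N := (le_max_right _ _).trans ((le_max_left _ _).trans hN)
  have hN2' : 2 ≤ N := (le_max_right _ _).trans hN
  obtain ⟨hlogN, hsN, hηN, hsl⟩ := hN2 N hNN2
  have hNpos : (0 : ℝ) < N := by
    have : 0 < N := by omega
    exact_mod_cast this
  have hN1' : (1 : ℝ) ≤ N := by
    have : 1 ≤ N := by omega
    exact_mod_cast this
  have hηN' : 48 ≤ η * N := by
    rw [div_le_iff₀ hη] at hηN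
    linarith
  have hg := hgood N hNN1
  set T : ℝ := (N : ℝ) ^ (1 / 2 + ε) with hTdef
  set s : ℝ := (N : ℝ) ^ (-(ε / 2)) with hsdef
  have hTpos : 0 < T := Real.rpow_pos_of_pos hNpos _
  have hspos : 0 < s := Real.rpow_pos_of_pos hNpos _
  have hTs : (N : ℝ) ^ (1 / 2 + ε / 2) = T * s := by
    rw [hTdef, hsdef, ← Real.rpow_add hNpos]
    congr 1
    ring
  have hs1 : s ≤ 1 := Real.rpow_le_one_of_one_le_of_nonpos hN1' (by linarith)
  have hslog : s * Real.log N ≤ 1 := by
    have h1 : s * Real.log N = Real.log N / (N : ℝ) ^ (ε / 2) := by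
      rw [hsdef, Real.rpow_neg hNpos.le]
      field_simp
    rw [h1]
    exact hsl.le
  have hNT : (N : ℝ) ≤ T ^ 2 * s ^ 2 := by
    have h1 : T ^ 2 * s ^ 2 = (N : ℝ) ^ (1 + ε) := by
      rw [hTdef, hsdef, ← Real.rpow_natCast, ← Real.rpow_mul hNpos.le, ← Real.rpow_natCast (_ ^ (-(ε / 2))),
        ← Real.rpow_mul hNpos.le, ← Real.rpow_add hNpos]
      congr 1
      push_cast
      ring
    rw [h1]
    calc (N : ℝ) = (N : ℝ) ^ (1 : ℝ) := (Real.rpow_one _).symm
      _ ≤ (N : ℝ) ^ (1 + ε) := Real.rpow_le_rpow_of_exponent_le hN1' (by linarith)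
  have hT2 : 2 ≤ T := by
    have h1 : Real.exp 1 ≤ (N : ℝ) ^ (1 / 2 : ℝ) := by
      rw [← Real.log_le_log_iff (Real.exp_pos 1) (by positivity), Real.log_exp, Real.log_rpow hNpos]
      linarith
    have h2 : (N : ℝ) ^ (1 / 2 : ℝ) ≤ T := Real.rpow_le_rpow_of_exponent_le hN1' (by linarith)
    have h3 := Real.add_one_le_exp (1 : ℝ)
    linarith
  set c1 : ℕ := ⌈η / 8 * N⌉₊ with hc1
  have htot := ra_count N c1
    (fun m => ∃ l k n : ℕ, 4 * K1 + 1000 ≤ l ∧ (l : ℝ) ≤ (N : ℝ) ^ (1 / 2 + ε / 2) ∧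
      (k : ℝ) ≤ (N : ℝ) ^ (1 / 2 + ε / 2) ∧ Sol m l n k)
    (fun n => η / 24 * N ≤ (n : ℝ) ∧ ¬ Good N T (1 / 100) K1 n) ?_
  · have hb5 : (c1 : ℝ) < η / 8 * N + 1 := Nat.ceil_lt_add_one (by positivity)
    have htot' := Nat.cast_le (α := ℝ).2 htot
    rw [Nat.cast_add, Nat.cast_mul] at htot'
    push_cast at htot'
    linarith
  · intro m hmN hQ
    obtain ⟨l, k, n, hl1, hl2, hk2, hsol⟩ := hQ
    by_contra hcon
    push Not at hcon
    obtain ⟨hn1, hn2, hn3⟩ := hcon
    have hm8 : η / 8 * N ≤ m := (Nat.le_ceil _).trans (by exact_mod_cast hn1)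
    have hG : Good N T (1 / 100) K1 m := hn2 (by nlinarith [hm8])
    have hhalf : (m : ℝ) ≤ 2 * ((m / 2 : ℕ) : ℝ) + 1 := by
      have : m ≤ 2 * (m / 2) + 1 := by omega
      exact_mod_cast this
    have hG2 : Good N T (1 / 100) K1 (m / 2) := hn3 (by nlinarith [hm8, hhalf, hηN'])
    have hmpos : (0 : ℝ) < m := by nlinarith [hm8, hηN']
    have hTsN : T * s ≤ N := by
      rw [← hTs]
      calc (N : ℝ) ^ (1 / 2 + ε / 2) ≤ (N : ℝ) ^ (1 : ℝ) :=
            Real.rpow_le_rpow_of_exponent_le hN1' (by linarith)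
        _ = N := Real.rpow_one _
    have hlT : (l : ℝ) ≤ T * s := by rw [← hTs]; exact hl2
    have hkT : (k : ℝ) ≤ T * s := by rw [← hTs]; exact hk2
    have hlN : l ≤ N := by exact_mod_cast hlT.trans hTsN
    have hlpos : (0 : ℝ) < l := by
      have : 0 < l := by omega
      exact_mod_cast this
    have hmN' : (m : ℝ) ≤ N := by exact_mod_cast hmN.le
    have hlN' : (l : ℝ) ≤ N := by exact_mod_cast hlN
    have hlog2 : Real.log 2 < 1 := by
      have := Real.log_two_lt_d9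
      linarith
    -- the maximum
    have hlog0 : 0 < Real.log N := by linarith
    have hkl : (k : ℝ) ≤ D * l * Real.log N := by
      have h1 := hlen m l n k hsol
      have h2 : Real.log ((m : ℝ) + l) ≤ 2 * Real.log N := by
        have h3 : (m : ℝ) + l ≤ (N : ℝ) ^ 2 := by
          have h4 : (2 : ℝ) ≤ N := by exact_mod_cast hN2'
          nlinarith
        have h4 := Real.log_le_log (by positivity) h3
        rw [Real.log_pow] at h4
        exact_mod_cast h4
      have h5 : C * l * Real.log ((m : ℝ) + l) ≤ C * l * (2 * Real.log N) :=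
        mul_le_mul_of_nonneg_left h2 (by positivity)
      have h6 : 0 ≤ (l : ℝ) * Real.log N := by positivity
      rw [hDdef]
      nlinarith
    have hll : (l : ℝ) ≤ D * l * Real.log N := by
      have h1 : (1 : ℝ) ≤ D * Real.log N := by nlinarith
      nlinarith
    have hK0 : (0 : ℝ) < max (k : ℝ) l := lt_of_lt_of_le hlpos (le_max_right _ _)
    have hKs : max (k : ℝ) l * s ≤ D * l := by
      have h1 : max (k : ℝ) l ≤ D * l * Real.log N := max_le hkl hll
      calc max (k : ℝ) l * s ≤ D * l * Real.log N * s := mul_le_mul_of_nonneg_right h1 hspos.le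
        _ = D * l * (s * Real.log N) := by ring
        _ ≤ D * l * 1 := mul_le_mul_of_nonneg_left hslog (by positivity)
        _ = D * l := mul_one _
    have hsN' : 1000 * D * s < η := by
      rw [lt_div_iff₀ (by positivity)] at hsN
      linarith
    exact ra_core hG hG2 hlog0 hl1 hlN (le_max_left _ _) (le_max_right _ _) hT2 hsol hmN (by linarith)
      (ra_num hη hTpos hNpos hmpos hlpos hmN' hlN' hm8 hK0 (max_le hkT hlT) hKs hNT hD1 hspos hsN')

end Pool.Agent.H70.AB
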