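import Pool.Agent.H70.AB.Defs
import Pool.Agent.H3.LC.Spacing

/-!
# AB Ratio: the fractions `x / y`, many elements with a large prime factor give one ratio

Adaptation of LC Frac and LC Ratio to blocks of different lengths.  `y` runs through the elements of the right block
`(m, m+l]` with a prime factor `p > T`; `x` in the left block with `p ∣ x`.  All `x / y` lie in an interval of length
`2 K / m`, `K ≥ k, l`.
-/

set_option autoImplicit false

open Finset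


namespace Pool.Agent.H70.AB

theorem exists_frac {m l n k : ℕ} (h : Sol m l n k) (T : ℝ) :
    ∃ F : ℕ → ℚ, ∀ y ∈ H3.LC.E T m l, ∃ x ∈ Icc (n + 1) (n + k), ∃ p : ℕ, p.Prime ∧ T < (p : ℝ) ∧ p ∣ y ∧
      p ∣ x ∧ F y = (x : ℚ) / (y : ℚ) ∧ (F y).den * p ∣ y := by
  have key : ∀ y ∈ H3.LC.E T m l, ∃ q : ℚ, ∃ x ∈ Icc (n + 1) (n + k), ∃ p : ℕ, p.Prime ∧ T < (p : ℝ) ∧
      p ∣ y ∧ p ∣ x ∧ q = (x : ℚ) / (y : ℚ) ∧ q.den * p ∣ y := by
    intro y hy
    rw [H3.LC.E, mem_filter] at hy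
    obtain ⟨hy1, p, hp⟩ := hy
    rw [H3.LC.big, mem_filter] at hp
    have hpp := Nat.prime_of_mem_primeFactors hp.1
    have hpy := Nat.dvd_of_mem_primeFactors hp.1
    obtain ⟨x, hx, hpx⟩ := (h.iff p hpp).2 ⟨y, hy1, hpy⟩
    refine ⟨(x : ℚ) / (y : ℚ), x, hx, p, hpp, hp.2, hpy, hpx, rfl, ?_⟩
    obtain ⟨a, ha⟩ := hpy
    obtain ⟨b, hb⟩ := hpx
    have hp0 : (p : ℚ) ≠ 0 := Nat.cast_ne_zero.2 hpp.ne_zero
    have h2 : (x : ℚ) / (y : ℚ) = ((b : ℤ) : ℚ) / ((a : ℤ) : ℚ) := by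
      rw [ha, hb]
      push_cast
      rw [mul_div_mul_left _ _ hp0]
    have h3 : ((((x : ℚ) / (y : ℚ)).den : ℕ) : ℤ) ∣ (a : ℤ) := by
      rw [h2, ← Rat.divInt_eq_div]; exact Rat.den_dvd b a
    have h4 : ((x : ℚ) / (y : ℚ)).den ∣ a := Int.natCast_dvd_natCast.1 h3
    have h5 : ((x : ℚ) / (y : ℚ)).den * p ∣ p * a := by
      rw [mul_comm]; exact Nat.mul_dvd_mul_left p h4
    rwa [← ha] at h5
  choose! F hF using key
  exact ⟨F, hF⟩

theorem frac_interval {m l n k x y : ℕ} (h : Sol m l n k) {K : ℝ} (hk : (k : ℝ) ≤ K) (hl : (l : ℝ) ≤ K)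
    (hx : x ∈ Icc (n + 1) (n + k)) (hy : y ∈ Icc (m + 1) (m + l)) :
    ((n : ℝ) + 1) / ((m : ℝ) + l) ≤ (x : ℝ) / (y : ℝ) ∧
      (x : ℝ) / (y : ℝ) ≤ ((n : ℝ) + 1) / ((m : ℝ) + l) + 2 * K / m := by
  have hk1 : (1 : ℝ) ≤ k := by exact_mod_cast h.hk
  have hl1 : (1 : ℝ) ≤ l := by exact_mod_cast h.hl
  have hnk : (n : ℝ) + k ≤ m := by exact_mod_cast h.le
  have hn : (0 : ℝ) ≤ n := Nat.cast_nonneg n
  have hm : (0 : ℝ) < m := by linarith
  rw [mem_Icc] at hx hy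
  have hx1 : (n : ℝ) + 1 ≤ x := by exact_mod_cast hx.1
  have hx2 : (x : ℝ) ≤ n + k := by exact_mod_cast hx.2
  have hy1 : (m : ℝ) + 1 ≤ y := by exact_mod_cast hy.1
  have hy2 : (y : ℝ) ≤ m + l := by exact_mod_cast hy.2
  have hy0 : (0 : ℝ) < y := by linarith
  constructor
  · exact div_le_div₀ (by linarith) hx1 hy0 hy2
  · have h1 : (x : ℝ) / y ≤ ((n : ℝ) + k) / (m + 1) :=
      div_le_div₀ (by linarith) hx2 (by linarith) hy1
    have hA : (0 : ℝ) < m + 1 := by linarith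
    have hB : (0 : ℝ) < m + l := by linarith
    have h2 : ((n : ℝ) + k) / (m + 1) - ((n : ℝ) + 1) / (m + l) ≤ 2 * K / m := by
      rw [div_sub_div _ _ hA.ne' hB.ne', div_le_div_iff₀ (mul_pos hA hB) hm]
      have h3 : ((n : ℝ) + k) * (m + l) - (m + 1) * (n + 1) = (k - 1) * (m + 1) + (n + k) * (l - 1) := by ring
      rw [h3]
      have h4 : ((k : ℝ) - 1) * (m + 1) ≤ K * (m + 1) := mul_le_mul_of_nonneg_right (by linarith) hA.le
      have h5 : ((n : ℝ) + k) * (l - 1) ≤ (m + 1) * K :=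
        mul_le_mul (by linarith) (by linarith) (by linarith) hA.le
      have h6 : ((k : ℝ) - 1) * (m + 1) + (n + k) * (l - 1) ≤ 2 * K * (m + 1) := by linarith
      have hK0 : 0 ≤ K := by linarith
      calc (((k : ℝ) - 1) * (m + 1) + (n + k) * (l - 1)) * m ≤ (2 * K * (m + 1)) * (m + l) :=
            mul_le_mul h6 (by linarith) hm.le (by positivity)
        _ = 2 * K * ((m + 1) * (m + l)) := by ring
    linarith

theorem single_ratio {m l n k : ℕ} (h : Sol m l n k) {T K : ℝ} (hT0 : 0 < T) (hk : (k : ℝ) ≤ K)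
    (hl : (l : ℝ) ≤ K)
    (hc : (l : ℝ) * (2 * (((m : ℝ) + l) / T) * (2 * K / m)) +
      2 * (((m : ℝ) + l) / T) ^ 2 * (2 * K / m) < ((H3.LC.E T m l).card : ℝ)) :
    ∃ r : ℚ, ∀ y ∈ H3.LC.E T m l, ∃ x ∈ Icc (n + 1) (n + k), (x : ℚ) = r * (y : ℚ) := by
  classical
  obtain ⟨F, hF⟩ := exists_frac h T
  have hlR : (0 : ℝ) < (l : ℝ) := Nat.cast_pos.2 h.hl
  have hmem : ∀ y ∈ H3.LC.E T m l, y ∈ Icc (m + 1) (m + l) := fun y hy => (mem_filter.1 hy).1
  have hypos : ∀ y ∈ H3.LC.E T m l, 0 < y := by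
    intro y hy
    have := (mem_Icc.1 (hmem y hy)).1
    omega
  by_cases hcard : 2 ≤ ((H3.LC.E T m l).image F).card
  · exfalso
    set Z : ℝ := ((m : ℝ) + l) / T with hZdef
    set lam : ℝ := 2 * K / m with hldef
    have hint : ∀ f ∈ (H3.LC.E T m l).image F, ((n : ℝ) + 1) / ((m : ℝ) + l) ≤ (f : ℝ) ∧
        (f : ℝ) ≤ ((n : ℝ) + 1) / ((m : ℝ) + l) + lam := by
      intro f hf
      obtain ⟨y, hy, rfl⟩ := mem_image.1 hf
      obtain ⟨x, hx, p, hp, hTp, hpy, hpx, hFy, hden⟩ := hF y hy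
      have h1 := frac_interval h hk hl hx (hmem y hy)
      rw [hFy]
      push_cast
      exact h1
    have hden : ∀ f ∈ (H3.LC.E T m l).image F, (f.den : ℝ) ≤ Z := by
      intro f hf
      obtain ⟨y, hy, rfl⟩ := mem_image.1 hf
      obtain ⟨x, hx, p, hp, hTp, hpy, hpx, hFy, hden⟩ := hF y hy
      rw [hZdef, le_div_iff₀ hT0]
      have h1 : (F y).den * p ≤ y := Nat.le_of_dvd (hypos y hy) hden
      have h2 : y ≤ m + l := (mem_Icc.1 (hmem y hy)).2
      have h3 : (((F y).den * p : ℕ) : ℝ) ≤ ((m + l : ℕ) : ℝ) := Nat.cast_le.2 (h1.trans h2)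
      push_cast at h3
      have h4 : ((F y).den : ℝ) * T ≤ ((F y).den : ℝ) * p :=
        mul_le_mul_of_nonneg_left hTp.le (Nat.cast_nonneg _)
      linarith
    obtain ⟨hs1, hs2⟩ := H3.LC.spacing hint hden hcard
    have hfib : ∀ f ∈ (H3.LC.E T m l).image F,
        (((H3.LC.E T m l).filter (fun y => F y = f)).card : ℝ) ≤ (l : ℝ) * (1 / (f.den : ℝ)) + 1 := by
      intro f hf
      have hdpos : 0 < f.den := f.den_pos
      have h1 : ((H3.LC.E T m l).filter (fun y => F y = f)).card ≤ l / f.den + 1 := by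
        refine le_trans (card_le_card ?_) (H3.LC.card_multiples_le m l hdpos)
        intro y hy
        rw [mem_filter] at hy
        rw [mem_filter]
        refine ⟨hmem y hy.1, ?_⟩
        obtain ⟨x, hx, p, hp, hTp, hpy, hpx, hFy, hden'⟩ := hF y hy.1
        rw [hy.2] at hden'
        exact dvd_trans (dvd_mul_right _ _) hden'
      have h2 : (((H3.LC.E T m l).filter (fun y => F y = f)).card : ℝ) ≤ ((l / f.den + 1 : ℕ) : ℝ) :=
        Nat.cast_le.2 h1
      have h3 : ((l / f.den : ℕ) : ℝ) ≤ (l : ℝ) / (f.den : ℝ) := Nat.cast_div_le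
      push_cast at h2
      have h4 : (l : ℝ) * (1 / (f.den : ℝ)) = (l : ℝ) / (f.den : ℝ) := by ring
      rw [h4]
      linarith
    have hsum : ((H3.LC.E T m l).card : ℝ) ≤ (l : ℝ) * (2 * Z * lam) + 2 * Z ^ 2 * lam := by
      have h1 : ((H3.LC.E T m l).card : ℝ) =
          ∑ f ∈ (H3.LC.E T m l).image F, (((H3.LC.E T m l).filter (fun y => F y = f)).card : ℝ) := by
        rw [card_eq_sum_card_image F (H3.LC.E T m l)]
        push_cast
        rfl
      rw [h1]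
      refine le_trans (sum_le_sum hfib) ?_
      rw [sum_add_distrib, ← mul_sum, sum_const, nsmul_eq_mul, mul_one]
      exact add_le_add (mul_le_mul_of_nonneg_left hs1 hlR.le) hs2
    linarith
  · -- at most one value
    have hle : ((H3.LC.E T m l).image F).card ≤ 1 := by omega
    rcases (H3.LC.E T m l).eq_empty_or_nonempty with hE | ⟨y0, hy0⟩
    · refine ⟨0, fun y hy => ?_⟩
      rw [hE] at hy
      exact absurd hy (notMem_empty y)
    · refine ⟨F y0, fun y hy => ?_⟩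
      have heq : F y = F y0 :=
        card_le_one.1 hle (F y) (mem_image_of_mem F hy) (F y0) (mem_image_of_mem F hy0)
      obtain ⟨x, hx, p, hp, hTp, hpy, hpx, hFy, hden⟩ := hF y hy
      refine ⟨x, hx, ?_⟩
      rw [← heq, hFy]
      have : (y : ℚ) ≠ 0 := Nat.cast_ne_zero.2 (hypos y hy).ne'
      field_simp

/-- one ratio on a nonempty set: a prime divides all the elements -/
theorem ratio_cases {m n k : ℕ} (hnk : n + k ≤ m) {S : Finset ℕ} (hne : S.Nonempty) (hS : ∀ y ∈ S, m < y) {r : ℚ}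
    (hr : ∀ y ∈ S, ∃ x ∈ Icc (n + 1) (n + k), (x : ℚ) = r * (y : ℚ)) :
    ∃ q : ℕ, q.Prime ∧ ∀ y ∈ S, q ∣ y := by
  by_cases hv : r.den = 1
  · exfalso
    obtain ⟨y, hy⟩ := hne
    obtain ⟨x, hx, hxy⟩ := hr y hy
    have hrn : r = (r.num : ℚ) := by
      conv_lhs => rw [← Rat.num_div_den r]
      rw [hv]; simp
    rw [hrn] at hxy
    have h1 : (x : ℤ) = r.num * (y : ℤ) := by exact_mod_cast hxy
    rw [mem_Icc] at hx
    have h2 := hS y hy
    have hy0 : (0 : ℤ) < y := by omega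
    have hz : (1 : ℤ) ≤ r.num := by
      by_contra hlt
      have h3 : r.num ≤ 0 := by omega
      have h4 : r.num * (y : ℤ) ≤ 0 := mul_nonpos_of_nonpos_of_nonneg h3 hy0.le
      omega
    have h5 : 1 * (y : ℤ) ≤ r.num * (y : ℤ) := mul_le_mul_of_nonneg_right hz hy0.le
    omega
  · obtain ⟨q, hq, hqd⟩ := Nat.exists_prime_and_dvd hv
    refine ⟨q, hq, fun y hy => ?_⟩
    obtain ⟨x, _, hxy⟩ := hr y hy
    have h1 : (x : ℚ) * r.den = r.num * y := by
      rw [hxy, mul_right_comm, Rat.mul_den_eq_num]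
    have h2 : (x : ℤ) * r.den = r.num * y := by exact_mod_cast h1
    have h3 : (r.den : ℤ) ∣ r.num * y := ⟨x, by rw [← h2]; ring⟩
    have h4 : r.den ∣ r.num.natAbs * y := by
      have := Int.natAbs_dvd_natAbs.2 h3
      rwa [Int.natAbs_mul, Int.natAbs_natCast, Int.natAbs_natCast] at this
    have h5 : r.den ∣ y := (r.reduced.symm).dvd_of_dvd_mul_left h4
    exact hqd.trans h5

end Pool.Agent.H70.AB
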